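import Mathlib

/-!
# Definitions: shortest monochromatic odd cycle in `n`-colourings of `K_{2^n+1}`
-/

namespace MP051125H83

/-- The colour-`i` graph of a colouring `c` of the unordered pairs of vertices by `n` colours:
two distinct vertices are adjacent iff the pair they form has colour `i`. (The value of `c` on
the diagonal of `Sym2` plays no role.) -/
def colourGraph {V : Type} {n : ℕ} (c : Sym2 V → Fin n) (i : Fin n) : SimpleGraph V where
  Adj u v := u ≠ v ∧ c s(u, v) = i
  symm := ⟨fun _ _ h => ⟨h.1.symm, by rw [Sym2.eq_swap]; exact h.2⟩⟩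
  loopless := ⟨fun _ h => h.1 rfl⟩

/-- Every `n`-colouring of the edges of the complete graph on `2^n+1` vertices has a colour `i`
whose colour-`i` graph contains an odd cycle of length at most `m`. -/
def OddCycleAtMost (n m : ℕ) : Prop :=
  ∀ c : Sym2 (Fin (2 ^ n + 1)) → Fin n, ∃ i : Fin n, ∃ v : Fin (2 ^ n + 1),
    ∃ w : (colourGraph c i).Walk v v, w.IsCycle ∧ Odd w.length ∧ w.length ≤ m

/-- The Erdős–Graham function: the least `m` such that every `n`-colouring of the edges of
`K_{2^n+1}` has a monochromatic odd cycle of length at most `m`. -/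
noncomputable def f (n : ℕ) : ℕ := sInf {m | OddCycleAtMost n m}

end MP051125H83
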