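import Mathlib

namespace MP051125H83

open SimpleGraph

variable {V : Type*} {G : SimpleGraph V}

/-- A path containing the edge between its endpoints has length one. -/
lemma length_eq_one_of_mem_edges {w u : V} (q : G.Walk w u) (hq : q.IsPath)
    (h : s(u, w) ∈ q.edges) : q.length = 1 := by
  cases q with
  | nil => simp at h
  | cons h' q' =>
    rename_i x
    rw [Walk.cons_isPath_iff] at hq
    rw [Walk.edges_cons, List.mem_cons] at h
    rcases h with h | h
    · have hx : x = u := by
        rw [Sym2.eq_iff] at h
        rcases h with h | h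
        · exact absurd (h.2 ▸ q'.start_mem_support) hq.2
        · exact h.1.symm
      subst hx
      have : q' = Walk.nil := by
        have := hq.1
        exact Walk.isPath_iff_eq_nil.1 this
      simp [this]
    · exact absurd (Walk.snd_mem_support_of_mem_edges _ h) hq.2

/-- Every walk can be shortened to a path of the same parity, unless one finds an odd cycle. -/
lemma path_or_odd_cycle {u v : V} (p : G.Walk u v) :
    (∃ (x : V) (c : G.Walk x x), c.IsCycle ∧ Odd c.length ∧ c.length ≤ p.length) ∨
    (∃ q : G.Walk u v, q.IsPath ∧ q.length ≤ p.length ∧ q.length % 2 = p.length % 2) := by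
  classical
  induction p with
  | nil => exact Or.inr ⟨Walk.nil, by simp, le_rfl, rfl⟩
  | @cons u w v h p ih =>
    rcases ih with ⟨x, c, hc, hodd, hle⟩ | ⟨q, hq, hle, hpar⟩
    · exact Or.inl ⟨x, c, hc, hodd, by simp; omega⟩
    · by_cases hu : u ∈ q.support
      · have hlen : (q.takeUntil u hu).length + (q.dropUntil u hu).length = q.length := by
          rw [← Walk.length_append, Walk.take_spec]
        by_cases hev : (q.takeUntil u hu).length % 2 = 0
        · left
          refine ⟨u, Walk.cons h (q.takeUntil u hu), ?_, ?_, ?_⟩
          · rw [Walk.cons_isCycle_iff]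
            refine ⟨hq.takeUntil hu, fun hmem => ?_⟩
            have := length_eq_one_of_mem_edges _ (hq.takeUntil hu) hmem
            omega
          · rw [Walk.length_cons, Nat.odd_iff]; omega
          · rw [Walk.length_cons, Walk.length_cons]; omega
        · right
          refine ⟨q.dropUntil u hu, hq.dropUntil hu, ?_, ?_⟩
          · rw [Walk.length_cons]; omega
          · rw [Walk.length_cons]; omega
      · right
        refine ⟨Walk.cons h q, ?_, ?_, ?_⟩
        · rw [Walk.cons_isPath_iff]; exact ⟨hq, hu⟩
        · rw [Walk.length_cons, Walk.length_cons]; omega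
        · rw [Walk.length_cons, Walk.length_cons]; omega

/-- An odd closed walk contains an odd cycle which is not longer. -/
theorem exists_odd_cycle_of_odd_closed_walk {v : V} (p : G.Walk v v) (h : Odd p.length) :
    ∃ (x : V) (c : G.Walk x x), c.IsCycle ∧ Odd c.length ∧ c.length ≤ p.length := by
  rcases path_or_odd_cycle p with h1 | ⟨q, hq, -, hpar⟩
  · exact h1
  · exfalso
    have : q = Walk.nil := Walk.isPath_iff_eq_nil.1 hq
    rw [this, Walk.length_nil] at hpar
    rw [Nat.odd_iff] at h
    omega

/-- `G` has no closed walk of odd length at most `L`. -/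
def NoShortOdd (G : SimpleGraph V) (L : ℕ) : Prop :=
  ∀ (v : V) (w : G.Walk v v), Odd w.length → L < w.length

lemma NoShortOdd.mono {L L' : ℕ} (h : NoShortOdd G L) (hL : L' ≤ L) : NoShortOdd G L' :=
  fun v w hw => lt_of_le_of_lt hL (h v w hw)

lemma NoShortOdd.comap {W : Type*} {H : SimpleGraph W} {L : ℕ} (h : NoShortOdd G L)
    (φ : H →g G) : NoShortOdd H L := by
  intro v w hw
  have := h (φ v) (w.map φ) (by rwa [Walk.length_map])
  rwa [Walk.length_map] at this

end MP051125H83
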