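import Mathlib
import Pool.Agent.Lib.MP_051125_co_h83.OddWalk

/-!
# Level labellings of a graph without short odd closed walks

A labelling assigns to every vertex a level between `0` and `L` and a sign.  Levels of adjacent
vertices differ by at most one, and the signs of adjacent vertices of positive level are different.
For every set `W` of vertices there is a labelling such that at least one half of the vertices of
`W` have the level `L` (`exists_lab`), if there are no odd closed walks of length at most
`2 L (2 s + 1) + 1`, where `(3/2)^s` is more than the number of vertices.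
-/

namespace MP051125H83

open SimpleGraph Finset
open scoped Classical

variable {V : Type*} [Fintype V] (G : SimpleGraph V)

/-- A labelling with levels at most `L` and signs. -/
structure Lab (L : ℕ) (l : V → ℕ) (sg : V → Bool) : Prop where
  le : ∀ u, l u ≤ L
  adj : ∀ u v, G.Adj u v → l u ≤ l v + 1
  sgn : ∀ u v, G.Adj u v → 1 ≤ l u → 1 ≤ l v → sg u ≠ sg v

namespace LabA

/-! ### Balls -/

/-- The ball of radius `t` around `c` in the graph induced on `U`. -/
noncomputable def ball (U : Finset V) (c : V) : ℕ → Finset V
  | 0 => {c}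
  | t + 1 => ball U c t ∪ U.filter fun u => ∃ v ∈ ball U c t, G.Adj v u

variable {G} {U : Finset V} {c : V}

theorem ball_succ (t : ℕ) : ball G U c (t + 1) =
    ball G U c t ∪ U.filter fun u => ∃ v ∈ ball G U c t, G.Adj v u := rfl

theorem ball_mono {t t' : ℕ} (h : t ≤ t') : ball G U c t ⊆ ball G U c t' := by
  induction t', h using Nat.le_induction with
  | base => exact Finset.Subset.refl _
  | succ k _ ih => exact ih.trans (by rw [ball_succ]; exact subset_union_left)

theorem ball_sub (hc : c ∈ U) (t : ℕ) : ball G U c t ⊆ U := by
  induction t with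
  | zero => exact singleton_subset_iff.2 hc
  | succ t ih => exact union_subset ih (filter_subset _ _)

theorem mem_ball (t : ℕ) : c ∈ ball G U c t := ball_mono (Nat.zero_le t) (mem_singleton_self c)

theorem ball_adj {t : ℕ} {u v : V} (hv : v ∈ ball G U c t) (h : G.Adj v u) (hu : u ∈ U) :
    u ∈ ball G U c (t + 1) := by
  rw [ball_succ]
  exact mem_union_right _ (mem_filter.2 ⟨hu, v, hv, h⟩)

theorem ball_walk {t : ℕ} : ∀ {u : V}, u ∈ ball G U c t → ∃ w : G.Walk c u, w.length ≤ t := by
  induction t with
  | zero =>
    intro u hu
    have h : u = c := mem_singleton.1 hu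
    subst h
    exact ⟨Walk.nil, le_rfl⟩
  | succ t ih =>
    intro u hu
    rw [ball_succ, mem_union] at hu
    rcases hu with hu | hu
    · obtain ⟨w, hw⟩ := ih hu
      exact ⟨w, by omega⟩
    · obtain ⟨-, v, hv, hvu⟩ := mem_filter.1 hu
      obtain ⟨w, hw⟩ := ih hv
      exact ⟨w.concat hvu, by rw [Walk.length_concat]; omega⟩

/-! ### Signs -/

variable (G) in
/-- The sign of a vertex of a ball of radius `T`. -/
noncomputable def sign (c : V) (T : ℕ) (u : V) : Bool :=
  decide (∃ w : G.Walk c u, w.length ≤ T ∧ Even w.length)

theorem sign_ne {T : ℕ} (hG : NoShortOdd G (2 * T + 1)) {u v : V} (hu : u ∈ ball G U c T)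
    (hv : v ∈ ball G U c T) (h : G.Adj u v) : sign G c T u ≠ sign G c T v := by
  have key : ∀ (w : G.Walk c u) (w' : G.Walk c v), w.length ≤ T → w'.length ≤ T →
      ¬ Even (w.length + w'.length) := by
    intro w w' h1 h2 h3
    have h4 := hG c ((w.concat h).append w'.reverse) (by
      rw [Walk.length_append, Walk.length_concat, Walk.length_reverse]
      have e : w.length + 1 + w'.length = w.length + w'.length + 1 := by ring
      rw [e]
      exact h3.add_one)
    rw [Walk.length_append, Walk.length_concat, Walk.length_reverse] at h4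
    omega
  intro heq
  unfold sign at heq
  rw [decide_eq_decide] at heq
  by_cases hs : ∃ w : G.Walk c u, w.length ≤ T ∧ Even w.length
  · obtain ⟨w', h1', h2'⟩ := heq.1 hs
    obtain ⟨w, h1, h2⟩ := hs
    exact key w w' h1 h1' (h2.add h2')
  · obtain ⟨w, hw⟩ := ball_walk hu
    obtain ⟨w', hw'⟩ := ball_walk hv
    have h1 : ¬ Even w.length := fun he => hs ⟨w, hw, he⟩
    have h2 : ¬ Even w'.length := fun he => hs (heq.2 ⟨w', hw', he⟩)
    rw [Nat.not_even_iff_odd] at h1 h2
    exact key w w' hw hw' (h1.add_odd h2)

/-! ### Erosion -/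

variable (G) in
/-- The vertices whose ball of radius `t` is contained in `C`. -/
noncomputable def er (C : Finset V) : ℕ → Finset V
  | 0 => C
  | t + 1 => (er C t).filter fun u => ∀ v, G.Adj u v → v ∈ er C t

theorem mem_er_succ {C : Finset V} {t : ℕ} {u : V} :
    u ∈ er G C (t + 1) ↔ u ∈ er G C t ∧ ∀ v, G.Adj u v → v ∈ er G C t := mem_filter

theorem er_anti {C : Finset V} {t t' : ℕ} (h : t ≤ t') : er G C t' ⊆ er G C t := by
  induction t', h using Nat.le_induction with
  | base => exact Finset.Subset.refl _
  | succ k _ ih => exact (filter_subset _ _).trans ih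

theorem er_sub {C : Finset V} (t : ℕ) : er G C t ⊆ C := er_anti (Nat.zero_le t)

theorem er_univ (t : ℕ) : er G (univ : Finset V) t = univ := by
  induction t with
  | zero => rfl
  | succ t ih =>
    ext u
    rw [mem_er_succ, ih]
    simp

/-- A vertex of a ball which is deep in `U` is deep in a larger ball. -/
theorem er_ball {t : ℕ} : ∀ {s : ℕ} {u : V}, u ∈ ball G U c s → u ∈ er G U t →
    u ∈ er G (ball G U c (s + t)) t := by
  induction t with
  | zero => intro s u hu _; exact hu
  | succ t ih =>
    intro s u hu hut
    rw [mem_er_succ] at hut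
    have e : s + (t + 1) = s + 1 + t := by ring
    rw [mem_er_succ, e]
    refine ⟨ih (ball_mono (Nat.le_succ s) hu) hut.1, fun v hv => ?_⟩
    exact ih (ball_adj hu hv (er_sub t (hut.2 v hv))) (hut.2 v hv)

/-- A vertex outside a ball which is deep in `U` is deep in the complement of a smaller ball. -/
theorem er_sdiff {t : ℕ} : ∀ {s : ℕ} {u : V}, u ∉ ball G U c (s + t) → u ∈ er G U t →
    u ∈ er G (U \ ball G U c s) t := by
  induction t with
  | zero => intro s u hu hu'; exact mem_sdiff.2 ⟨hu', hu⟩
  | succ t ih =>
    intro s u hu hut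
    rw [mem_er_succ] at hut
    rw [mem_er_succ]
    refine ⟨ih (fun h => hu (ball_mono (by omega) h)) hut.1, fun v hv => ?_⟩
    refine ih (fun h => hu ?_) (hut.2 v hv)
    exact ball_adj h hv.symm (er_sub t hut.1)

/-! ### Levels -/

variable (G) in
/-- The level of a vertex in the cluster `C`. -/
noncomputable def lv (C : Finset V) (L : ℕ) (u : V) : ℕ :=
  ((range L).filter fun t => u ∈ er G C (t + 1)).card

theorem lv_le (C : Finset V) (L : ℕ) (u : V) : lv G C L u ≤ L :=
  (card_filter_le _ _).trans (card_range L).le

theorem lv_eq {C : Finset V} {L : ℕ} {u : V} (hu : u ∈ er G C L) : lv G C L u = L := by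
  unfold lv
  rw [filter_true_of_mem, card_range]
  intro t ht
  exact er_anti (by have := mem_range.1 ht; omega) hu

theorem lv_pos {C : Finset V} {L : ℕ} {u : V} (h : 1 ≤ lv G C L u) : u ∈ er G C 1 := by
  obtain ⟨t, ht⟩ := card_pos.1 (lt_of_lt_of_le Nat.zero_lt_one h)
  exact er_anti (by omega) (mem_filter.1 ht).2

theorem lv_zero {C : Finset V} {L : ℕ} {u : V} (h : u ∉ er G C 1) : lv G C L u = 0 := by
  by_contra hne
  exact h (lv_pos (Nat.one_le_iff_ne_zero.2 hne))

theorem lv_adj (C : Finset V) (L : ℕ) {u v : V} (h : G.Adj u v) :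
    lv G C L u ≤ lv G C L v + 1 := by
  unfold lv
  have hsub : ((range L).filter fun t => u ∈ er G C (t + 1)) ⊆
      insert 0 (((range L).filter fun t => v ∈ er G C (t + 1)).image Nat.succ) := by
    intro t ht
    rw [mem_filter, mem_range] at ht
    rw [mem_insert]
    rcases Nat.eq_zero_or_pos t with h0 | h0
    · exact Or.inl h0
    · right
      obtain ⟨t', rfl⟩ : ∃ t', t = t' + 1 := ⟨t - 1, by omega⟩
      rw [mem_image]
      refine ⟨t', ?_, rfl⟩
      rw [mem_filter, mem_range]
      exact ⟨by omega, (mem_er_succ.1 ht.2).2 v h⟩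
  refine (card_le_card hsub).trans ((card_insert_le _ _).trans ?_)
  exact Nat.add_le_add_right card_image_le 1

/-! ### The radius -/

theorem exists_radius {s : ℕ} (hs : 2 ^ s * Fintype.card V < 3 ^ s) (L : ℕ) (U W : Finset V)
    {c : V} (hc : c ∈ W) : ∃ j < s, 2 * (W ∩ ball G U c (2 * L * (j + 1))).card ≤
      3 * (W ∩ ball G U c (2 * L * j)).card := by
  by_contra hcon
  push Not at hcon
  have key : ∀ j ≤ s, 3 ^ j ≤ 2 ^ j * (W ∩ ball G U c (2 * L * j)).card := by
    intro j
    induction j with
    | zero =>
      intro _
      rw [pow_zero, pow_zero, one_mul]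
      exact card_pos.2 ⟨c, mem_inter.2 ⟨hc, mem_ball _⟩⟩
    | succ j ih =>
      intro hj
      have h1 := ih (by omega)
      have h2 := hcon j (by omega)
      calc 3 ^ (j + 1) = 3 * 3 ^ j := by rw [pow_succ]; ring
        _ ≤ 3 * (2 ^ j * (W ∩ ball G U c (2 * L * j)).card) := Nat.mul_le_mul_left 3 h1
        _ = 2 ^ j * (3 * (W ∩ ball G U c (2 * L * j)).card) := by ring
        _ ≤ 2 ^ j * (2 * (W ∩ ball G U c (2 * L * (j + 1))).card) :=
            Nat.mul_le_mul_left _ h2.le
        _ = 2 ^ (j + 1) * (W ∩ ball G U c (2 * L * (j + 1))).card := by rw [pow_succ]; ring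
  have h1 := key s le_rfl
  have h2 : (W ∩ ball G U c (2 * L * s)).card ≤ Fintype.card V := card_le_univ _
  have h3 := h1.trans (Nat.mul_le_mul_left (2 ^ s) h2)
  omega

/-! ### The main induction -/

variable (G) in
theorem main {L s : ℕ} (hL : 1 ≤ L) (hG : NoShortOdd G (2 * (L * (2 * s + 1)) + 1))
    (hs : 2 ^ s * Fintype.card V < 3 ^ s) (W : Finset V) (U : Finset V) :
    ∃ l sg, Lab G L l sg ∧ (∀ u, u ∉ U → l u = 0) ∧
      2 * (W.filter fun u => l u ≠ L).card ≤
        (W ∩ U).card + 2 * (W.filter fun u => u ∉ er G U L).card := by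
  induction U using Finset.strongInduction with
  | H U ih =>
    by_cases hWU : (W ∩ U).Nonempty
    · obtain ⟨c, hcWU⟩ := hWU
      obtain ⟨hcW, hcU⟩ := mem_inter.1 hcWU
      obtain ⟨j, hj, hrad⟩ := exists_radius (G := G) hs L U W hcW
      set ρ : ℕ := 2 * L * j with hρ
      set T : ℕ := ρ + L with hT
      set C : Finset V := ball G U c T with hC
      have hρ2 : 2 * L * (j + 1) = ρ + L + L := by rw [hρ]; ring
      rw [hρ2] at hrad
      have hCU : C ⊆ U := ball_sub hcU T
      have hTle : T ≤ L * (2 * s + 1) := by
        rw [hT, hρ]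
        have h1 : L * j ≤ L * s := Nat.mul_le_mul_left L hj.le
        nlinarith
      have hG' : NoShortOdd G (2 * T + 1) := hG.mono (by omega)
      have hss : U \ C ⊂ U := by
        rw [Finset.ssubset_iff_subset_ne]
        refine ⟨sdiff_subset, fun h => ?_⟩
        have h1 : c ∈ U \ C := by rw [h]; exact hcU
        exact (mem_sdiff.1 h1).2 (mem_ball T)
      obtain ⟨l', sg', hlab, hzero, hcount⟩ := ih (U \ C) hss
      have hl'C : ∀ u ∈ C, l' u = 0 := fun u hu => hzero u (fun h => (mem_sdiff.1 h).2 hu)
      set l : V → ℕ := fun u => if u ∈ C then lv G C L u else l' u with hl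
      set sg : V → Bool := fun u => if u ∈ C then sign G c T u else sg' u with hsg
      have l_in : ∀ u ∈ C, l u = lv G C L u := fun u hu => if_pos hu
      have l_out : ∀ u, u ∉ C → l u = l' u := fun u hu => if_neg hu
      have hbd : ∀ u v, G.Adj u v → u ∈ C → v ∉ C → l u = 0 := by
        intro u v huv hu hv
        rw [l_in u hu]
        refine lv_zero fun h => hv ?_
        exact (mem_er_succ.1 h).2 v huv
      refine ⟨l, sg, ⟨?_, ?_, ?_⟩, ?_, ?_⟩
      · intro u
        by_cases hu : u ∈ C
        · rw [l_in u hu]; exact lv_le _ _ _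
        · rw [l_out u hu]; exact hlab.le u
      · intro u v huv
        by_cases hu : u ∈ C
        · by_cases hv : v ∈ C
          · rw [l_in u hu, l_in v hv]
            exact lv_adj C L huv
          · rw [hbd u v huv hu hv]
            exact Nat.zero_le _
        · by_cases hv : v ∈ C
          · rw [l_out u hu]
            have h1 := hlab.adj u v huv
            rw [hl'C v hv] at h1
            omega
          · rw [l_out u hu, l_out v hv]
            exact hlab.adj u v huv
      · intro u v huv h1 h2
        by_cases hu : u ∈ C
        · by_cases hv : v ∈ C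
          · have e1 : sg u = sign G c T u := if_pos hu
            have e2 : sg v = sign G c T v := if_pos hv
            rw [e1, e2]
            exact sign_ne hG' hu hv huv
          · rw [hbd u v huv hu hv] at h1
            omega
        · by_cases hv : v ∈ C
          · rw [hbd v u huv.symm hv hu] at h2
            omega
          · have e1 : sg u = sg' u := if_neg hu
            have e2 : sg v = sg' v := if_neg hv
            rw [e1, e2]
            rw [l_out u hu] at h1
            rw [l_out v hv] at h2
            exact hlab.sgn u v huv h1 h2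
      · intro u hu
        rw [l_out u (fun h => hu (hCU h))]
        exact hzero u (fun h => hu (mem_sdiff.1 h).1)
      · -- counting
        set P : Finset V := W.filter fun u => u ∈ er G C L with hP
        have hPC : ∀ u ∈ P, u ∈ C := fun u hu => er_sub L (mem_filter.1 hu).2
        have c1 : (W.filter fun u => l u ≠ L).card + P.card ≤
            (W.filter fun u => l' u ≠ L).card := by
          rw [← card_union_of_disjoint]
          · refine card_le_card (union_subset ?_ ?_)
            · intro u hu
              rw [mem_filter] at hu ⊢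
              refine ⟨hu.1, ?_⟩
              by_cases hC' : u ∈ C
              · rw [hl'C u hC']; omega
              · rw [← l_out u hC']; exact hu.2
            · intro u hu
              have h1 := hPC u hu
              rw [mem_filter]
              refine ⟨(mem_filter.1 hu).1, ?_⟩
              rw [hl'C u h1]
              omega
          · rw [Finset.disjoint_left]
            intro u hu hu'
            have h1 := hPC u hu'
            apply (mem_filter.1 hu).2
            rw [l_in u h1]
            exact lv_eq (mem_filter.1 hu').2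
        have c2 : (W.filter fun u => u ∉ er G (U \ C) L).card ≤
            (W.filter fun u => u ∉ er G U L).card + P.card +
              (W ∩ (ball G U c (ρ + L + L) \ ball G U c ρ)).card := by
          refine (card_le_card ?_).trans ((card_union_le _ _).trans
            (Nat.add_le_add_right (card_union_le _ _) _))
          intro u hu
          rw [mem_filter] at hu
          rw [mem_union, mem_union]
          by_cases h1 : u ∈ er G U L
          · by_cases h2 : u ∈ er G C L
            · exact Or.inl (Or.inr (mem_filter.2 ⟨hu.1, h2⟩))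
            · right
              rw [mem_inter, mem_sdiff]
              refine ⟨hu.1, ?_, ?_⟩
              · by_contra h3
                exact hu.2 (er_sdiff h3 h1)
              · intro h3
                exact h2 (er_ball h3 h1)
          · exact Or.inl (Or.inl (mem_filter.2 ⟨hu.1, h1⟩))
        have c3 : (W ∩ (ball G U c (ρ + L + L) \ ball G U c ρ)).card +
            (W ∩ ball G U c ρ).card = (W ∩ ball G U c (ρ + L + L)).card := by
          rw [← card_union_of_disjoint, ← inter_union_distrib_left, sdiff_union_of_subset]
          · exact ball_mono (by omega)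
          · refine Finset.disjoint_left.2 fun u hu hu' => ?_
            exact (mem_sdiff.1 (mem_inter.1 hu).2).2 (mem_inter.1 hu').2
        have c4 : (W ∩ ball G U c ρ).card ≤ (W ∩ C).card :=
          card_le_card (inter_subset_inter_left (ball_mono (by omega)))
        have c5 : (W ∩ (U \ C)).card + (W ∩ C).card = (W ∩ U).card := by
          rw [← card_union_of_disjoint, ← inter_union_distrib_left, sdiff_union_of_subset hCU]
          refine Finset.disjoint_left.2 fun u hu hu' => ?_
          exact (mem_sdiff.1 (mem_inter.1 hu).2).2 (mem_inter.1 hu').2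
        omega
    · refine ⟨fun _ => 0, fun _ => false, ⟨fun _ => Nat.zero_le _, fun _ _ _ => Nat.zero_le _,
        fun _ _ _ h => absurd h (by omega)⟩, fun _ _ => rfl, ?_⟩
      rw [not_nonempty_iff_eq_empty] at hWU
      have h1 : W.filter (fun u => u ∉ er G U L) = W := by
        refine filter_true_of_mem fun u hu hu' => ?_
        have : u ∈ W ∩ U := mem_inter.2 ⟨hu, er_sub L hu'⟩
        rw [hWU] at this
        exact absurd this (notMem_empty u)
      rw [h1]
      have h2 : (W.filter fun u => (fun _ : V => (0 : ℕ)) u ≠ L).card ≤ W.card :=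
        card_filter_le _ _
      omega

end LabA

/-- **Part A.** -/
theorem exists_lab {L s : ℕ} (hG : NoShortOdd G (2 * (L * (2 * s + 1)) + 1))
    (hs : 2 ^ s * Fintype.card V < 3 ^ s) (W : Finset V) :
    ∃ l sg, Lab G L l sg ∧ 2 * (W.filter fun u => l u ≠ L).card ≤ W.card := by
  rcases Nat.eq_zero_or_pos L with h0 | hL
  · subst h0
    refine ⟨fun _ => 0, fun _ => false, ⟨fun _ => Nat.zero_le _, fun _ _ _ => Nat.zero_le _,
      fun _ _ _ h => absurd h (by omega)⟩, ?_⟩
    simp
  · obtain ⟨l, sg, h1, -, h3⟩ := LabA.main G hL hG hs W univ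
    refine ⟨l, sg, h1, ?_⟩
    rw [inter_univ] at h3
    have h4 : W.filter (fun u => u ∉ LabA.er G univ L) = ∅ := by
      refine filter_false_of_mem fun u _ => ?_
      rw [LabA.er_univ]
      simp
    rw [h4, card_empty] at h3
    omega

end MP051125H83
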