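import Mathlib
import Pool.Agent.Lib.MP_051125_co_h83.OddWalk

/-!
# A random ball-carving decomposition of one graph without short odd closed walks
-/

namespace MP051125H83

open SimpleGraph Finset

/-- A probability distribution on partial 2-labellings of the vertices of `G` (`none` means
starred) such that the labelling is proper at unstarred vertices and such that every vertex is
starred with probability at most `p`. -/
structure Decomp {V : Type*} [Fintype V] [DecidableEq V] (G : SimpleGraph V) (p : ℝ) where
  μ : (V → Option Bool) → ℝ
  nonneg : ∀ o, 0 ≤ μ o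
  total : ∑ o, μ o = 1
  good : ∀ o, μ o ≠ 0 → ∀ u v, G.Adj u v → o u ≠ none → o u ≠ o v
  star : ∀ v, ∑ o with o v = none, μ o ≤ p

section dist

variable {V : Type*} (G : SimpleGraph V) (R : ℕ)

open Classical in
/-- distance, `R+1` for unreachable pairs -/
noncomputable def dd (c v : V) : ℕ := if G.Reachable c v then G.dist c v else R + 1

lemma dd_self (v : V) : dd G R v v = 0 := by
  unfold dd
  rw [if_pos (Reachable.refl v)]; simp

lemma dd_adj (c u v : V) (h : G.Adj u v) : dd G R c v ≤ dd G R c u + 1 := by
  unfold dd
  by_cases hr : G.Reachable c u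
  · rw [if_pos hr, if_pos (hr.trans h.reachable)]
    obtain ⟨w, hw⟩ := hr.exists_walk_length_eq_dist
    rw [← hw]
    have := dist_le (w.concat h)
    rwa [Walk.length_concat] at this
  · have hr' : ¬ G.Reachable c v := fun h' => hr (h'.trans h.symm.reachable)
    rw [if_neg hr, if_neg hr']; omega

lemma dd_odd (hG : NoShortOdd G (2 * R + 1)) (c u v : V) (h : G.Adj u v)
    (he : dd G R c u = dd G R c v) : R < dd G R c u := by
  unfold dd at *
  by_cases hr : G.Reachable c u
  · have hr' : G.Reachable c v := hr.trans h.reachable
    rw [if_pos hr, if_pos hr'] at he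
    rw [if_pos hr]
    obtain ⟨w, hw⟩ := hr.exists_walk_length_eq_dist
    obtain ⟨w', hw'⟩ := hr'.exists_walk_length_eq_dist
    have := hG c ((w.concat h).append w'.reverse) (by
      rw [Walk.length_append, Walk.length_concat, Walk.length_reverse, hw, hw', he]
      exact ⟨G.dist c v, by ring⟩)
    rw [Walk.length_append, Walk.length_concat, Walk.length_reverse, hw, hw'] at this
    omega
  · rw [if_neg hr]; omega

end dist

section carve

variable {V : Type*} [Fintype V] [LinearOrder V] (G : SimpleGraph V) (R : ℕ)

/-- the vertices whose ball contains `v` -/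
noncomputable def cands (r : V → Fin (R + 1)) (v : V) : Finset V :=
  univ.filter (fun c => dd G R c v ≤ (r c : ℕ))

lemma cands_nonempty (r : V → Fin (R + 1)) (v : V) : (cands G R r v).Nonempty :=
  ⟨v, by simp [cands, dd_self]⟩

/-- the centre of the cluster of `v` -/
noncomputable def centre (r : V → Fin (R + 1)) (v : V) : V :=
  (cands G R r v).min' (cands_nonempty G R r v)

/-- the parity label of `v` -/
noncomputable def lab (r : V → Fin (R + 1)) (v : V) : Bool :=
  (dd G R (centre G R r v) v).bodd

/-- `v` is starred if it has a neighbour in another cluster -/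
def isStar (r : V → Fin (R + 1)) (v : V) : Prop :=
  ∃ w, G.Adj v w ∧ centre G R r w ≠ centre G R r v

open Classical in
/-- the outcome -/
noncomputable def out (r : V → Fin (R + 1)) (v : V) : Option Bool :=
  if isStar G R r v then none else some (lab G R r v)

lemma centre_mem (r : V → Fin (R + 1)) (v : V) :
    dd G R (centre G R r v) v ≤ (r (centre G R r v) : ℕ) := by
  have := (cands G R r v).min'_mem (cands_nonempty G R r v)
  exact (mem_filter.1 this).2

lemma centre_le (r : V → Fin (R + 1)) (v c : V) (h : dd G R c v ≤ (r c : ℕ)) :
    centre G R r v ≤ c :=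
  (cands G R r v).min'_le c (by simpa [cands] using h)

lemma centre_eq (r : V → Fin (R + 1)) (v c : V) (h : dd G R c v ≤ (r c : ℕ))
    (h' : ∀ c' < c, (r c' : ℕ) < dd G R c' v) : centre G R r v = c := by
  refine le_antisymm (centre_le G R r v c h) ?_
  by_contra hlt
  push Not at hlt
  have := h' _ hlt
  have := centre_mem G R r v
  omega

lemma out_good (hG : NoShortOdd G (2 * R + 1)) (r : V → Fin (R + 1)) (u v : V)
    (h : G.Adj u v) (hu : out G R r u ≠ none) : out G R r u ≠ out G R r v := by
  classical
  unfold out at *
  by_cases hs : isStar G R r u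
  · rw [if_pos hs] at hu; exact absurd rfl hu
  · rw [if_neg hs]
    by_cases hs' : isStar G R r v
    · rw [if_pos hs']; simp
    · rw [if_neg hs']
      intro heq
      have heq := Option.some.inj heq
      have hc : centre G R r v = centre G R r u := by
        by_contra hne
        exact hs ⟨v, h, hne⟩
      unfold lab at heq
      rw [hc] at heq
      have h1 := dd_adj G R (centre G R r u) u v h
      have h2 := dd_adj G R (centre G R r u) v u h.symm
      have h3 : dd G R (centre G R r u) u ≠ dd G R (centre G R r u) v := by
        intro he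
        have := dd_odd G R hG _ u v h he
        have h4 := centre_mem G R r u
        have h5 := (r (centre G R r u)).2
        omega
      have h6 : (dd G R (centre G R r u) u) % 2 = (dd G R (centre G R r u) v) % 2 := by
        rw [Nat.mod_two_of_bodd, Nat.mod_two_of_bodd, heq]
      omega

lemma star_event (r : V → Fin (R + 1)) (v : V) (h : isStar G R r v) :
    ∃ c, (∀ c' < c, (r c' : ℕ) + 1 < dd G R c' v) ∧
      ((r c : ℕ) = dd G R c v ∨ (r c : ℕ) + 1 = dd G R c v) := by
  classical
  set s : Finset V := univ.filter (fun c => dd G R c v ≤ (r c : ℕ) + 1) with hs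
  have hne : s.Nonempty := ⟨v, by simp [hs, dd_self]⟩
  set c := s.min' hne with hc
  have hcm : dd G R c v ≤ (r c : ℕ) + 1 := by
    have := s.min'_mem hne
    rw [← hc] at this
    simpa [hs] using this
  have hlt : ∀ c' < c, (r c' : ℕ) + 1 < dd G R c' v := by
    intro c' hc'
    by_contra hcon
    push Not at hcon
    have := s.min'_le c' (by simpa [hs] using hcon)
    exact absurd hc' (not_lt.2 this)
  refine ⟨c, hlt, ?_⟩
  by_contra hcon
  push Not at hcon
  have hin : dd G R c v + 1 ≤ (r c : ℕ) := by omega
  have hall : ∀ x, (x = v ∨ G.Adj v x) → centre G R r x = c := by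
    intro x hx
    have hd : ∀ c', dd G R c' x ≤ dd G R c' v + 1 ∧ dd G R c' v ≤ dd G R c' x + 1 := by
      intro c'
      rcases hx with rfl | hx
      · omega
      · exact ⟨dd_adj G R c' v x hx, dd_adj G R c' x v hx.symm⟩
    apply centre_eq
    · have := (hd c).1; omega
    · intro c' hc'
      have := hlt c' hc'
      have := (hd c').2
      omega
  obtain ⟨w, hw, hne'⟩ := h
  exact hne' (by rw [hall w (Or.inr hw), hall v (Or.inl rfl)])

end carve

end MP051125H83
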