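import Pool.Agent.Lib.MP_051125_co_h83.Lab

/-!
# Level labellings with weights

`exists_labW`: the weighted version of `exists_lab`; the vertices of level less than `L` have at
most one quarter of the total weight.

`exists_fam`: finitely many labellings of one graph, such that every vertex has a level at least
`L / 2` in one of them, and a bound for the number of the labellings in which it has a positive
level.

`exists_fams`: the same for several graphs; the total number of labellings in which a vertex has
positive level is at most linear in the number of graphs.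
-/

namespace MP051125H83

open SimpleGraph Finset
open scoped Classical

variable {V : Type*} [Fintype V]

namespace LabA

variable {G : SimpleGraph V}

/-! ### The radius -/

theorem exists_radiusW {s : ℕ} (hs : 4 ^ s * Fintype.card V < 5 ^ s) (L : ℕ) {U : Finset V}
    (μ : V → ℕ) {c : V} (hcU : c ∈ U) (hc : 0 < μ c) (hmax : ∀ u ∈ U, μ u ≤ μ c) :
    ∃ j < s, 4 * ∑ u ∈ ball G U c (2 * L * (j + 1)), μ u ≤
      5 * ∑ u ∈ ball G U c (2 * L * j), μ u := by
  by_contra hcon
  push Not at hcon
  have key : ∀ j ≤ s, 5 ^ j * μ c ≤ 4 ^ j * ∑ u ∈ ball G U c (2 * L * j), μ u := by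
    intro j
    induction j with
    | zero =>
      intro _
      rw [pow_zero, pow_zero, one_mul, one_mul]
      exact single_le_sum (f := μ) (fun _ _ => Nat.zero_le _) (mem_ball _)
    | succ j ih =>
      intro hj
      have h1 := ih (by omega)
      have h2 := hcon j (by omega)
      calc 5 ^ (j + 1) * μ c = 5 * (5 ^ j * μ c) := by rw [pow_succ]; ring
        _ ≤ 5 * (4 ^ j * ∑ u ∈ ball G U c (2 * L * j), μ u) := Nat.mul_le_mul_left 5 h1
        _ = 4 ^ j * (5 * ∑ u ∈ ball G U c (2 * L * j), μ u) := by ring
        _ ≤ 4 ^ j * (4 * ∑ u ∈ ball G U c (2 * L * (j + 1)), μ u) :=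
            Nat.mul_le_mul_left _ h2.le
        _ = 4 ^ (j + 1) * ∑ u ∈ ball G U c (2 * L * (j + 1)), μ u := by rw [pow_succ]; ring
  have h1 := key s le_rfl
  have h2 : ∑ u ∈ ball G U c (2 * L * s), μ u ≤ Fintype.card V * μ c := by
    calc ∑ u ∈ ball G U c (2 * L * s), μ u ≤ ∑ _u ∈ ball G U c (2 * L * s), μ c :=
          sum_le_sum fun u hu => hmax u (ball_sub hcU _ hu)
      _ = (ball G U c (2 * L * s)).card * μ c := by rw [sum_const, smul_eq_mul]
      _ ≤ Fintype.card V * μ c := Nat.mul_le_mul_right _ (card_le_univ _)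
  have h3 := h1.trans (Nat.mul_le_mul_left (4 ^ s) h2)
  have h4 : 4 ^ s * (Fintype.card V * μ c) < 5 ^ s * μ c := by
    rw [← mul_assoc]
    exact Nat.mul_lt_mul_of_pos_right hs hc
  omega

/-! ### The main induction -/

variable (G) in
theorem mainW {L s : ℕ} (hL : 1 ≤ L) (hG : NoShortOdd G (2 * (L * (2 * s + 1)) + 1))
    (hs : 4 ^ s * Fintype.card V < 5 ^ s) (μ : V → ℕ) (U : Finset V) :
    ∃ l sg, Lab G L l sg ∧ (∀ u, u ∉ U → l u = 0) ∧
      4 * ∑ u with l u ≠ L, μ u ≤
        ∑ u ∈ U, μ u + 4 * ∑ u with u ∉ er G U L, μ u := by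
  induction U using Finset.strongInduction with
  | H U ih =>
    by_cases hWU : ∃ u ∈ U, 0 < μ u
    · obtain ⟨c, hcU, hmax⟩ := exists_max_image U μ (by
        obtain ⟨u, hu, -⟩ := hWU
        exact ⟨u, hu⟩)
      have hc : 0 < μ c := by
        obtain ⟨u, hu, hu0⟩ := hWU
        exact lt_of_lt_of_le hu0 (hmax u hu)
      obtain ⟨j, hj, hrad⟩ := exists_radiusW (G := G) hs L μ hcU hc hmax
      set ρ : ℕ := 2 * L * j with hρ
      set T : ℕ := ρ + L with hT
      set C : Finset V := ball G U c T with hC
      have hρ2 : 2 * L * (j + 1) = ρ + L + L := by rw [hρ]; ring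
      rw [hρ2] at hrad
      have hCU : C ⊆ U := ball_sub hcU T
      have hTle : T ≤ L * (2 * s + 1) := by
        rw [hT, hρ]
        have h1 : L * j ≤ L * s := Nat.mul_le_mul_left L hj.le
        nlinarith
      have hG' : NoShortOdd G (2 * T + 1) := hG.mono (by omega)
      have hss : U \ C ⊂ U := by
        rw [Finset.ssubset_iff_subset_ne]
        refine ⟨sdiff_subset, fun h => ?_⟩
        have h1 : c ∈ U \ C := by rw [h]; exact hcU
        exact (mem_sdiff.1 h1).2 (mem_ball T)
      obtain ⟨l', sg', hlab, hzero, hcount⟩ := ih (U \ C) hss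
      have hl'C : ∀ u ∈ C, l' u = 0 := fun u hu => hzero u (fun h => (mem_sdiff.1 h).2 hu)
      set l : V → ℕ := fun u => if u ∈ C then lv G C L u else l' u with hl
      set sg : V → Bool := fun u => if u ∈ C then sign G c T u else sg' u with hsg
      have l_in : ∀ u ∈ C, l u = lv G C L u := fun u hu => if_pos hu
      have l_out : ∀ u, u ∉ C → l u = l' u := fun u hu => if_neg hu
      have hbd : ∀ u v, G.Adj u v → u ∈ C → v ∉ C → l u = 0 := by
        intro u v huv hu hv
        rw [l_in u hu]
        refine lv_zero fun h => hv ?_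
        exact (mem_er_succ.1 h).2 v huv
      refine ⟨l, sg, ⟨?_, ?_, ?_⟩, ?_, ?_⟩
      · intro u
        by_cases hu : u ∈ C
        · rw [l_in u hu]; exact lv_le _ _ _
        · rw [l_out u hu]; exact hlab.le u
      · intro u v huv
        by_cases hu : u ∈ C
        · by_cases hv : v ∈ C
          · rw [l_in u hu, l_in v hv]
            exact lv_adj C L huv
          · rw [hbd u v huv hu hv]
            exact Nat.zero_le _
        · by_cases hv : v ∈ C
          · rw [l_out u hu]
            have h1 := hlab.adj u v huv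
            rw [hl'C v hv] at h1
            omega
          · rw [l_out u hu, l_out v hv]
            exact hlab.adj u v huv
      · intro u v huv h1 h2
        by_cases hu : u ∈ C
        · by_cases hv : v ∈ C
          · have e1 : sg u = sign G c T u := if_pos hu
            have e2 : sg v = sign G c T v := if_pos hv
            rw [e1, e2]
            exact sign_ne hG' hu hv huv
          · rw [hbd u v huv hu hv] at h1
            omega
        · by_cases hv : v ∈ C
          · rw [hbd v u huv.symm hv hu] at h2
            omega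
          · have e1 : sg u = sg' u := if_neg hu
            have e2 : sg v = sg' v := if_neg hv
            rw [e1, e2]
            rw [l_out u hu] at h1
            rw [l_out v hv] at h2
            exact hlab.sgn u v huv h1 h2
      · intro u hu
        rw [l_out u (fun h => hu (hCU h))]
        exact hzero u (fun h => hu (mem_sdiff.1 h).1)
      · -- counting
        set P : Finset V := er G C L with hP
        have hPC : ∀ u ∈ P, u ∈ C := fun u hu => er_sub L hu
        have c1 : (∑ u with l u ≠ L, μ u) + ∑ u ∈ P, μ u ≤ ∑ u with l' u ≠ L, μ u := by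
          rw [← sum_union]
          · refine sum_le_sum_of_subset (union_subset ?_ ?_)
            · intro u hu
              rw [mem_filter] at hu ⊢
              refine ⟨hu.1, ?_⟩
              by_cases hC' : u ∈ C
              · rw [hl'C u hC']; omega
              · rw [← l_out u hC']; exact hu.2
            · intro u hu
              have h1 := hPC u hu
              rw [mem_filter]
              refine ⟨mem_univ _, ?_⟩
              rw [hl'C u h1]
              omega
          · rw [Finset.disjoint_left]
            intro u hu hu'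
            have h1 := hPC u hu'
            apply (mem_filter.1 hu).2
            rw [l_in u h1]
            exact lv_eq hu'
        have c2 : (∑ u with u ∉ er G (U \ C) L, μ u) ≤
            (∑ u with u ∉ er G U L, μ u) + (∑ u ∈ P, μ u) +
              ∑ u ∈ ball G U c (ρ + L + L) \ ball G U c ρ, μ u := by
          have h5 : (univ.filter fun u => u ∉ er G (U \ C) L) ⊆
              ((univ.filter fun u => u ∉ er G U L) ∪ P) ∪
                (ball G U c (ρ + L + L) \ ball G U c ρ) := by
            intro u hu
            rw [mem_filter] at hu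
            rw [mem_union, mem_union]
            by_cases h1 : u ∈ er G U L
            · by_cases h2 : u ∈ er G C L
              · exact Or.inl (Or.inr h2)
              · right
                rw [mem_sdiff]
                refine ⟨?_, ?_⟩
                · by_contra h3
                  exact hu.2 (er_sdiff h3 h1)
                · intro h3
                  exact h2 (er_ball h3 h1)
            · exact Or.inl (Or.inl (mem_filter.2 ⟨hu.1, h1⟩))
          refine (sum_le_sum_of_subset h5).trans ?_
          have h6 := sum_union_inter (s₁ := (univ.filter fun u => u ∉ er G U L) ∪ P)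
            (s₂ := ball G U c (ρ + L + L) \ ball G U c ρ) (f := μ)
          have h7 := sum_union_inter (s₁ := univ.filter fun u => u ∉ er G U L)
            (s₂ := P) (f := μ)
          omega
        have c3 : (∑ u ∈ ball G U c (ρ + L + L) \ ball G U c ρ, μ u) +
            (∑ u ∈ ball G U c ρ, μ u) = ∑ u ∈ ball G U c (ρ + L + L), μ u :=
          sum_sdiff (ball_mono (by omega))
        have c4 : (∑ u ∈ ball G U c ρ, μ u) ≤ ∑ u ∈ C, μ u :=
          sum_le_sum_of_subset (ball_mono (by omega))
        have c5 : (∑ u ∈ U \ C, μ u) + (∑ u ∈ C, μ u) = ∑ u ∈ U, μ u := sum_sdiff hCU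
        omega
    · refine ⟨fun _ => 0, fun _ => false, ⟨fun _ => Nat.zero_le _, fun _ _ _ => Nat.zero_le _,
        fun _ _ _ h => absurd h (by omega)⟩, fun _ _ => rfl, ?_⟩
      have h0 : ∀ u ∈ U, μ u = 0 := by
        intro u hu
        by_contra hne
        exact hWU ⟨u, hu, Nat.pos_of_ne_zero hne⟩
      have h1 : (∑ u with (fun _ : V => (0 : ℕ)) u ≠ L, μ u) ≤ ∑ u with u ∉ er G U L, μ u := by
        rw [← sum_filter_add_sum_filter_not (univ.filter fun u => (fun _ : V => (0 : ℕ)) u ≠ L)
          (fun u => u ∈ U) μ]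
        have h2 : ∑ u ∈ (univ.filter fun u => (fun _ : V => (0 : ℕ)) u ≠ L) with u ∈ U, μ u = 0 :=
          sum_eq_zero fun u hu => h0 u (mem_filter.1 hu).2
        rw [h2, zero_add]
        refine sum_le_sum_of_subset fun u hu => ?_
        rw [mem_filter] at hu ⊢
        exact ⟨mem_univ _, fun h => hu.2 (er_sub L h)⟩
      omega

end LabA

variable (G : SimpleGraph V)

/-- **Part A with weights.** -/
theorem exists_labW {L s : ℕ} (hL : 1 ≤ L) (hG : NoShortOdd G (2 * (L * (2 * s + 1)) + 1))
    (hs : 4 ^ s * Fintype.card V < 5 ^ s) (μ : V → ℕ) :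
    ∃ l sg, Lab G L l sg ∧ 4 * ∑ u with l u ≠ L, μ u ≤ ∑ u, μ u := by
  obtain ⟨l, sg, h1, -, h3⟩ := LabA.mainW G hL hG hs μ univ
  refine ⟨l, sg, h1, ?_⟩
  have h4 : (univ.filter fun u => u ∉ LabA.er G univ L) = ∅ := by
    refine filter_false_of_mem fun u _ => ?_
    rw [LabA.er_univ]
    simp
  rw [h4, sum_empty] at h3
  omega

/-! ### Families of labellings of one graph -/

/-- A finite family of labellings of `G` such that every vertex has level at least `L / 2` in one
of them. -/
structure LabFam (G : SimpleGraph V) (L : ℕ) where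
  /-- the number of labellings -/
  D : ℕ
  /-- the levels -/
  w : Fin D → V → ℕ
  /-- the signs -/
  sg : Fin D → V → Bool
  lab : ∀ j, Lab G L (w j) (sg j)
  big : ∀ u, ∃ j, L ≤ 2 * w j u

/-- The number of labellings in which the vertex has positive level. -/
noncomputable def LabFam.act {G : SimpleGraph V} {L : ℕ} (F : LabFam G L) (u : V) : ℕ :=
  (univ.filter fun j => 1 ≤ F.w j u).card

omit [Fintype V] in
/-- Truncation of a labelling. -/
theorem Lab.patch {G : SimpleGraph V} {L : ℕ} {l : V → ℕ} {sg : V → Bool} (h : Lab G L l sg)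
    {m : V → ℕ} (hm : ∀ u v, G.Adj u v → m u ≤ m v + 1) :
    Lab G L (fun u => min (l u) (L - m u)) sg where
  le u := (min_le_left _ _).trans (h.le u)
  adj u v huv := by
    have h1 := h.adj u v huv
    have h2 := hm v u huv.symm
    omega
  sgn u v huv h1 h2 := h.sgn u v huv (h1.trans (min_le_left _ _)) (h2.trans (min_le_left _ _))

namespace LabB

theorem rounds {L s : ℕ} (hL : 1 ≤ L) (hG : NoShortOdd G (2 * (L * (2 * s + 1)) + 1))
    (hs : 4 ^ s * Fintype.card V < 5 ^ s) (μ : V → ℕ) (hμ : ∀ u, 1 ≤ μ u) (W : Finset V) :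
    ∀ m : V → ℕ, (∀ u, m u ≤ L) → (∀ u v, G.Adj u v → m u ≤ m v + 1) →
      (∀ u, u ∉ W → m u = L) →
    ∃ (D : ℕ) (w : Fin D → V → ℕ) (sg : Fin D → V → Bool), (∀ j, Lab G L (w j) (sg j)) ∧
      (∀ u, 2 * m u < L → ∃ j, L ≤ 2 * w j u) ∧
      (∀ u, u ∉ W → (univ.filter fun j => 1 ≤ w j u).card = 0) ∧
      ∑ u ∈ W, μ u * 2 ^ (univ.filter fun j => 1 ≤ w j u).card ≤ 4 * ∑ u ∈ W, μ u := by
  induction W using Finset.strongInduction with
  | H W ih =>
    intro m hmL hmadj hmW
    rcases W.eq_empty_or_nonempty with hW | hW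
    · subst hW
      refine ⟨0, fun j => j.elim0, fun j => j.elim0, fun j => j.elim0, fun u hu => ?_,
        fun u _ => by simp, by simp⟩
      have := hmW u (notMem_empty u)
      omega
    · obtain ⟨l, sg, hlab, hcount⟩ := exists_labW G hL hG hs (fun u => if u ∈ W then μ u else 0)
      have hcount0 : (∑ u, if u ∈ W then μ u else 0) = ∑ u ∈ W, μ u := by
        rw [sum_ite_mem, univ_inter]
      rw [hcount0] at hcount
      set W' : Finset V := W.filter fun u => l u ≠ L with hW'
      have hsum : (∑ u with l u ≠ L, if u ∈ W then μ u else 0) = ∑ u ∈ W', μ u := by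
        rw [← sum_filter]
        refine sum_congr ?_ fun _ _ => rfl
        ext u
        simp only [hW', mem_filter, mem_univ, true_and]
        tauto
      rw [hsum] at hcount
      have hpos : 0 < ∑ u ∈ W, μ u := by
        obtain ⟨u, hu⟩ := hW
        exact lt_of_lt_of_le (hμ u) (single_le_sum (f := μ) (fun _ _ => Nat.zero_le _) hu)
      have hss : W' ⊂ W := by
        rw [Finset.ssubset_iff_subset_ne]
        refine ⟨filter_subset _ _, fun h => ?_⟩
        rw [h] at hcount
        omega
      obtain ⟨D, w, sgs, h1, h2, h3, h4⟩ := ih W' hss (fun u => max (m u) (l u))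
        (fun u => max_le (hmL u) (hlab.le u))
        (fun u v huv => by
          have a1 := hmadj u v huv
          have a2 := hlab.adj u v huv
          omega)
        (fun u hu => by
          have a1 := hmL u
          have a2 := hlab.le u
          by_cases hu' : u ∈ W
          · have a3 : l u = L := by
              by_contra hne
              exact hu (mem_filter.2 ⟨hu', hne⟩)
            omega
          · have a3 := hmW u hu'
            omega)
      set w0 : V → ℕ := fun u => min (l u) (L - m u) with hw0
      have hcard : ∀ u, (univ.filter fun j : Fin (D + 1) =>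
          1 ≤ (Fin.cons w0 w : Fin (D + 1) → V → ℕ) j u).card =
          (if 1 ≤ w0 u then 1 else 0) + (univ.filter fun j => 1 ≤ w j u).card := by
        intro u
        rw [card_filter, Fin.sum_univ_succ, Fin.cons_zero, card_filter]
        simp only [Fin.cons_succ]
      refine ⟨D + 1, Fin.cons w0 w, Fin.cons sg sgs, ?_, ?_, ?_, ?_⟩
      · intro j
        refine Fin.cases ?_ (fun j => ?_) j
        · rw [Fin.cons_zero, Fin.cons_zero]
          exact hlab.patch hmadj
        · rw [Fin.cons_succ, Fin.cons_succ]
          exact h1 j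
      · intro u hu
        by_cases h5 : 2 * max (m u) (l u) < L
        · obtain ⟨j, hj⟩ := h2 u h5
          exact ⟨j.succ, by rwa [Fin.cons_succ]⟩
        · refine ⟨0, ?_⟩
          rw [Fin.cons_zero]
          simp only [hw0]
          omega
      · intro u hu
        rw [hcard, h3 u (fun h => hu (mem_filter.1 h).1)]
        have a1 := hmW u hu
        have a2 : w0 u = 0 := by
          simp only [hw0]
          omega
        rw [a2]
        simp
      · have e1 : ∑ u ∈ W, μ u * 2 ^ (univ.filter fun j : Fin (D + 1) =>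
            1 ≤ (Fin.cons w0 w : Fin (D + 1) → V → ℕ) j u).card ≤
            ∑ u ∈ W, 2 * (μ u * 2 ^ (univ.filter fun j => 1 ≤ w j u).card) := by
          refine sum_le_sum fun u _ => ?_
          rw [hcard]
          split_ifs
          · rw [pow_add, pow_one]
            exact le_of_eq (by ring)
          · rw [zero_add]
            omega
        refine e1.trans ?_
        rw [← mul_sum, ← sum_filter_add_sum_filter_not W (fun u => l u ≠ L)]
        have e2 : ∑ u ∈ W with ¬ l u ≠ L, μ u * 2 ^ (univ.filter fun j => 1 ≤ w j u).card =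
            ∑ u ∈ W with ¬ l u ≠ L, μ u := by
          refine sum_congr rfl fun u hu => ?_
          rw [h3 u (fun h => (mem_filter.1 hu).2 (mem_filter.1 h).2), pow_zero, mul_one]
        have e3 := sum_filter_add_sum_filter_not W (fun u => l u ≠ L) μ
        rw [e2]
        change 2 * (∑ u ∈ W', _ + _) ≤ _
        change ∑ u ∈ W', μ u + _ = _ at e3
        omega

end LabB

theorem exists_fam {L s : ℕ} (hL : 1 ≤ L) (hG : NoShortOdd G (2 * (L * (2 * s + 1)) + 1))
    (hs : 4 ^ s * Fintype.card V < 5 ^ s) (μ : V → ℕ) (hμ : ∀ u, 1 ≤ μ u) :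
    ∃ F : LabFam G L, ∑ u, μ u * 2 ^ F.act u ≤ 4 * ∑ u, μ u := by
  obtain ⟨D, w, sg, h1, h2, -, h4⟩ := LabB.rounds G hL hG hs μ hμ univ (fun _ => 0)
    (fun _ => Nat.zero_le _) (fun _ _ _ => Nat.zero_le _) (fun u hu => absurd (mem_univ u) hu)
  exact ⟨⟨D, w, sg, h1, fun u => h2 u (by omega)⟩, h4⟩

/-- **Families of labellings for several graphs.** -/
theorem exists_fams {C : Type*} [Fintype C] (G : C → SimpleGraph V) {L s : ℕ} (hL : 1 ≤ L)
    (hG : ∀ i, NoShortOdd (G i) (2 * (L * (2 * s + 1)) + 1))
    (hs : 4 ^ s * Fintype.card V < 5 ^ s) :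
    ∃ F : ∀ i, LabFam (G i) L, ∀ u, 2 ^ (∑ i, (F i).act u) ≤
      4 ^ Fintype.card C * Fintype.card V := by
  have F0 : ∀ i, Nonempty (LabFam (G i) L) := fun i => by
    obtain ⟨F, -⟩ := exists_fam (G i) hL (hG i) hs (fun _ => 1) (fun _ => le_rfl)
    exact ⟨F⟩
  have key : ∀ T : Finset C, ∀ μ : V → ℕ, (∀ u, 1 ≤ μ u) → ∃ F : ∀ i, LabFam (G i) L,
      ∑ u, μ u * 2 ^ (∑ i ∈ T, (F i).act u) ≤ 4 ^ T.card * ∑ u, μ u := by
    intro T
    induction T using Finset.induction_on with
    | empty =>
      intro μ _
      refine ⟨fun i => (F0 i).some, ?_⟩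
      simp
    | insert a T ha ih =>
      intro μ hμ
      obtain ⟨Fa, hFa⟩ := exists_fam (G a) hL (hG a) hs μ hμ
      obtain ⟨F, hF⟩ := ih (fun u => μ u * 2 ^ Fa.act u)
        (fun u => Nat.one_le_iff_ne_zero.2 (mul_ne_zero (by have := hμ u; omega)
          (pow_ne_zero _ two_ne_zero)))
      refine ⟨Function.update F a Fa, ?_⟩
      have e : ∀ u, ∑ i ∈ insert a T, (Function.update F a Fa i).act u =
          Fa.act u + ∑ i ∈ T, (F i).act u := by
        intro u
        rw [sum_insert ha, Function.update_self]
        congr 1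
        refine sum_congr rfl fun i hi => ?_
        have hne : i ≠ a := by
          rintro rfl
          exact ha hi
        rw [Function.update_of_ne hne]
      simp only [e]
      calc ∑ u, μ u * 2 ^ (Fa.act u + ∑ i ∈ T, (F i).act u)
          = ∑ u, μ u * 2 ^ Fa.act u * 2 ^ (∑ i ∈ T, (F i).act u) :=
            sum_congr rfl fun u _ => by rw [pow_add]; ring
        _ ≤ 4 ^ T.card * ∑ u, μ u * 2 ^ Fa.act u := hF
        _ ≤ 4 ^ T.card * (4 * ∑ u, μ u) := Nat.mul_le_mul_left _ hFa
        _ = 4 ^ (insert a T).card * ∑ u, μ u := by rw [card_insert_of_notMem ha, pow_succ]; ring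
  obtain ⟨F, hF⟩ := key univ (fun _ => 1) (fun _ => le_rfl)
  refine ⟨F, fun u => ?_⟩
  have h1 : 2 ^ (∑ i, (F i).act u) ≤ ∑ v, 1 * 2 ^ (∑ i, (F i).act v) := by
    have h2 := single_le_sum (f := fun v => 1 * 2 ^ (∑ i, (F i).act v))
      (fun _ _ => Nat.zero_le _) (mem_univ u)
    simpa using h2
  refine h1.trans (hF.trans ?_)
  rw [sum_const, smul_eq_mul, mul_one, card_univ, card_univ]

end MP051125H83
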