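import Mathlib

/-!
# Merging subcubes

Subcubes of `{0,1}^C` are coded by `F : C → Option Bool` (`none` = free coordinate).
-/

namespace MP051125H83

open Finset

variable {V C : Type*} [Fintype V] [Fintype C] [DecidableEq C]

/-- dimension of a subcube -/
def fdim (F : C → Option Bool) : ℕ := (univ.filter (fun j => F j = none)).card

/-- the subcube `o` is contained in the subcube `F` -/
def Inside (o F : C → Option Bool) : Prop := ∀ j, F j ≠ none → o j = F j

/-- the two subcubes intersect -/
def Compat (F F' : C → Option Bool) : Prop := ∀ j, F j = none ∨ F' j = none ∨ F j = F' j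

/-- the smallest subcube containing two subcubes -/
def hull (F F' : C → Option Bool) : C → Option Bool := fun j => if F j = F' j then F j else none

/-- every free coordinate of `F` is free in `Z v` for some `Z v` contained in `F` -/
def Covered (Z : V → C → Option Bool) (F : C → Option Bool) : Prop :=
  ∀ j, F j = none → ∃ v, Inside (Z v) F ∧ Z v j = none

/-- the points of a subcube -/
def pts (F : C → Option Bool) : Finset (C → Bool) :=
  Fintype.piFinset (fun j => univ.filter (fun b => F j = none ∨ F j = some b))

lemma card_pts (F : C → Option Bool) : (pts F).card = 2 ^ fdim F := by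
  unfold pts fdim
  rw [Fintype.card_piFinset]
  have : ∀ j, (univ.filter (fun b => F j = none ∨ F j = some b)).card
      = if F j = none then 2 else 1 := by
    intro j
    rcases hF : F j with _ | b
    · simp
    · simp [Finset.filter_eq]
  rw [prod_congr rfl (fun j _ => this j), prod_ite]
  simp

lemma pts_disjoint {F F' : C → Option Bool} (h : ¬ Compat F F') : Disjoint (pts F) (pts F') := by
  rw [Finset.disjoint_left]
  intro x hx hx'
  apply h
  intro j
  unfold pts at hx hx'
  rw [Fintype.mem_piFinset] at hx hx'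
  have h1 := hx j
  have h2 := hx' j
  simp only [mem_filter, mem_univ, true_and] at h1 h2
  rcases h1 with h1 | h1
  · exact Or.inl h1
  · rcases h2 with h2 | h2
    · exact Or.inr (Or.inl h2)
    · exact Or.inr (Or.inr (h1.trans h2.symm))

omit [Fintype C] in
lemma hull_none {F F' : C → Option Bool} (h : Compat F F') (j : C) :
    hull F F' j = none ↔ (F j = none ∨ F' j = none) := by
  unfold hull
  by_cases he : F j = F' j
  · rw [if_pos he, ← he]; simp
  · rw [if_neg he]
    rcases h j with h | h | h
    · simp [h]
    · simp [h]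
    · exact absurd h he

lemma fdim_hull {F F' : C → Option Bool} (h : Compat F F') :
    fdim (hull F F') ≤ fdim F + fdim F' := by
  unfold fdim
  calc _ ≤ (univ.filter (fun j => F j = none) ∪ univ.filter (fun j => F' j = none)).card := by
        apply card_le_card
        intro j hj
        rw [mem_filter, hull_none h] at hj
        rw [mem_union, mem_filter, mem_filter]
        rcases hj.2 with h | h
        · exact Or.inl ⟨mem_univ _, h⟩
        · exact Or.inr ⟨mem_univ _, h⟩
    _ ≤ _ := card_union_le _ _

omit [Fintype C] in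
lemma inside_hull_left {o F F' : C → Option Bool} (h : Inside o F) : Inside o (hull F F') := by
  intro j hj
  unfold hull at *
  by_cases he : F j = F' j
  · rw [if_pos he] at hj ⊢; exact h j hj
  · rw [if_neg he] at hj; exact absurd rfl hj

omit [Fintype C] in
lemma inside_hull_right {o F F' : C → Option Bool} (h : Inside o F') : Inside o (hull F F') := by
  intro j hj
  unfold hull at *
  by_cases he : F j = F' j
  · rw [if_pos he] at hj ⊢; rw [he] at hj ⊢; exact h j hj
  · rw [if_neg he] at hj; exact absurd rfl hj

omit [Fintype C] [Fintype V] in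
lemma covered_hull (Z : V → C → Option Bool) {F F' : C → Option Bool} (h : Compat F F')
    (hF : Covered Z F) (hF' : Covered Z F') : Covered Z (hull F F') := by
  intro j hj
  rw [hull_none h] at hj
  rcases hj with hj | hj
  · obtain ⟨v, hv, hvj⟩ := hF j hj
    exact ⟨v, inside_hull_left hv, hvj⟩
  · obtain ⟨v, hv, hvj⟩ := hF' j hj
    exact ⟨v, inside_hull_right hv, hvj⟩

theorem merge (Z : V → C → Option Bool) (K : ℕ) (h1 : ∀ v, fdim (Z v) < K)
    (h2 : ∀ F, Covered Z F → ¬ (K ≤ fdim F ∧ fdim F < 2 * K))
    (h3 : ∀ F (W : Finset V), fdim F < K → (∀ v ∈ W, Inside (Z v) F) → W.card ≤ 2 ^ fdim F) :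
    Fintype.card V ≤ 2 ^ Fintype.card C := by
  classical
  set P : Finset (C → Option Bool) → Prop := fun 𝒜 =>
    (∀ F ∈ 𝒜, Covered Z F ∧ fdim F < K) ∧ ∀ v, ∃ F ∈ 𝒜, Inside (Z v) F with hP
  have hne : (univ.filter P).Nonempty := by
    refine ⟨univ.image Z, ?_⟩
    rw [mem_filter]
    refine ⟨mem_univ _, ?_, ?_⟩
    · intro F hF
      rw [mem_image] at hF
      obtain ⟨v, -, rfl⟩ := hF
      exact ⟨fun j hj => ⟨v, fun _ _ => rfl, hj⟩, h1 v⟩
    · intro v
      exact ⟨Z v, mem_image_of_mem _ (mem_univ _), fun _ _ => rfl⟩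
  obtain ⟨𝒜, h𝒜, hmin⟩ := exists_min_image (univ.filter P) (fun 𝒜 => 𝒜.card) hne
  rw [mem_filter] at h𝒜
  have hPA := h𝒜.2
  have hdis : ∀ F ∈ 𝒜, ∀ F' ∈ 𝒜, F ≠ F' → ¬ Compat F F' := by
    intro F hF F' hF' hne' hcomp
    have hdim : fdim (hull F F') < K := by
      by_contra hcon
      push Not at hcon
      have := fdim_hull hcomp
      have a1 := (hPA.1 F hF).2
      have a2 := (hPA.1 F' hF').2
      exact h2 _ (covered_hull Z hcomp (hPA.1 F hF).1 (hPA.1 F' hF').1) ⟨hcon, by omega⟩
    have hP' : P (insert (hull F F') ((𝒜.erase F).erase F')) := by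
      refine ⟨?_, ?_⟩
      · intro G hG
        rw [mem_insert] at hG
        rcases hG with rfl | hG
        · exact ⟨covered_hull Z hcomp (hPA.1 F hF).1 (hPA.1 F' hF').1, hdim⟩
        · exact hPA.1 G (mem_of_mem_erase (mem_of_mem_erase hG))
      · intro v
        obtain ⟨G, hG, hvG⟩ := hPA.2 v
        by_cases hGF : G = F
        · subst hGF
          exact ⟨_, mem_insert_self _ _, inside_hull_left hvG⟩
        · by_cases hGF' : G = F'
          · subst hGF'
            exact ⟨_, mem_insert_self _ _, inside_hull_right hvG⟩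
          · exact ⟨G, mem_insert_of_mem (mem_erase.2 ⟨hGF', mem_erase.2 ⟨hGF, hG⟩⟩), hvG⟩
    have hle := hmin _ (mem_filter.2 ⟨mem_univ _, hP'⟩)
    have hc1 := card_insert_le (hull F F') ((𝒜.erase F).erase F')
    have hc2 : ((𝒜.erase F).erase F').card = 𝒜.card - 1 - 1 := by
      rw [card_erase_of_mem (mem_erase.2 ⟨hne'.symm, hF'⟩), card_erase_of_mem hF]
    have hc3 : 2 ≤ 𝒜.card := by
      have : ({F, F'} : Finset (C → Option Bool)) ⊆ 𝒜 := by
        intro G hG
        rw [mem_insert, mem_singleton] at hG
        rcases hG with rfl | rfl <;> assumption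
      have h := card_le_card this
      rwa [card_pair hne'] at h
    have hle' : 𝒜.card ≤ (insert (hull F F') ((𝒜.erase F).erase F')).card := hle
    omega
  calc Fintype.card V = (univ : Finset V).card := card_univ.symm
    _ ≤ (𝒜.biUnion (fun F => univ.filter (fun v => Inside (Z v) F))).card := by
        apply card_le_card
        intro v _
        rw [mem_biUnion]
        obtain ⟨F, hF, hv⟩ := hPA.2 v
        exact ⟨F, hF, mem_filter.2 ⟨mem_univ _, hv⟩⟩
    _ ≤ ∑ F ∈ 𝒜, (univ.filter (fun v => Inside (Z v) F)).card := card_biUnion_le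
    _ ≤ ∑ F ∈ 𝒜, 2 ^ fdim F :=
        sum_le_sum fun F hF => h3 F _ (hPA.1 F hF).2 (fun v hv => (mem_filter.1 hv).2)
    _ = ∑ F ∈ 𝒜, (pts F).card := sum_congr rfl fun F _ => (card_pts F).symm
    _ = (𝒜.biUnion pts).card := by
        rw [card_biUnion]
        intro F hF F' hF' hne'
        exact pts_disjoint (hdis F hF F' hF' hne')
    _ ≤ (univ : Finset (C → Bool)).card := card_le_card (subset_univ _)
    _ = 2 ^ Fintype.card C := by rw [card_univ, Fintype.card_fun, Fintype.card_bool]

end MP051125H83
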