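import Mathlib
import Pool.Agent.Lib.MP_051125_co_h83.Carve

/-!
# The distribution of the ball carving
-/

namespace MP051125H83

open SimpleGraph Finset

/-- geometric weight -/
noncomputable def gw (β : ℝ) (i : ℕ) : ℝ := β * (1 - β) ^ i

/-- the union bound -/
lemma union_bound {Ω ι : Type*} [DecidableEq Ω] (E : Finset Ω) (s : Finset ι) (T : ι → Finset Ω)
    (w : Ω → ℝ) (hw : ∀ x, 0 ≤ w x) (h : ∀ x ∈ E, ∃ i ∈ s, x ∈ T i) :
    ∑ x ∈ E, w x ≤ ∑ i ∈ s, ∑ x ∈ T i, w x := by
  calc ∑ x ∈ E, w x ≤ ∑ x ∈ E, ∑ i ∈ s, if x ∈ T i then w x else 0 := by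
        refine sum_le_sum fun x hx => ?_
        obtain ⟨i, hi, hxi⟩ := h x hx
        calc w x = if x ∈ T i then w x else 0 := by rw [if_pos hxi]
          _ ≤ _ := single_le_sum (f := fun i => if x ∈ T i then w x else 0)
            (fun j _ => by split_ifs; exacts [hw x, le_rfl]) hi
    _ = ∑ i ∈ s, ∑ x ∈ E, if x ∈ T i then w x else 0 := sum_comm
    _ ≤ _ := by
        refine sum_le_sum fun i _ => ?_
        rw [← sum_filter]
        exact sum_le_sum_of_subset_of_nonneg (fun x hx => (mem_filter.1 hx).2) (fun x _ _ => hw x)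

section gw

variable {β : ℝ} (hβ : 0 ≤ β) (hβ1 : β ≤ 1)

include hβ hβ1

lemma gw_nonneg (i : ℕ) : 0 ≤ gw β i :=
  mul_nonneg hβ (pow_nonneg (by linarith) _)

omit hβ hβ1 in
lemma gw_sum_range (m : ℕ) : ∑ i ∈ range m, gw β i = 1 - (1 - β) ^ m := by
  induction m with
  | zero => simp
  | succ m ih => rw [sum_range_succ, ih, gw]; ring

lemma pow_le_one' (m : ℕ) : (1 - β) ^ m ≤ 1 := pow_le_one₀ (by linarith) (by linarith)

lemma gw_low (R d : ℕ) :
    ∑ i ∈ univ.filter (fun i : Fin (R + 1) => (i : ℕ) + 1 < d), gw β i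
      ≤ 1 - (1 - β) ^ (d - 1) := by
  rw [← gw_sum_range]
  have : ∑ i ∈ univ.filter (fun i : Fin (R + 1) => (i : ℕ) + 1 < d), gw β i
      = ∑ i ∈ (range (R + 1)).filter (fun i => i + 1 < d), gw β i := by
    rw [sum_filter, sum_filter, Finset.sum_range]
  rw [this]
  refine sum_le_sum_of_subset_of_nonneg ?_ (fun i _ _ => gw_nonneg hβ hβ1 i)
  intro i hi
  simp only [mem_filter, mem_range] at hi ⊢
  omega

lemma gw_edge (R d : ℕ) :
    ∑ i ∈ univ.filter (fun i : Fin (R + 1) => (i : ℕ) = d ∨ (i : ℕ) + 1 = d), gw β i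
      ≤ 2 * β * (1 - β) ^ (d - 1) := by
  have : ∑ i ∈ univ.filter (fun i : Fin (R + 1) => (i : ℕ) = d ∨ (i : ℕ) + 1 = d), gw β i
      = ∑ i ∈ (range (R + 1)).filter (fun i => i = d ∨ i + 1 = d), gw β i := by
    rw [sum_filter, sum_filter, Finset.sum_range]
  rw [this]
  rcases Nat.eq_zero_or_pos d with rfl | hd
  · calc _ ≤ ∑ i ∈ ({0} : Finset ℕ), gw β i := by
          refine sum_le_sum_of_subset_of_nonneg ?_ (fun i _ _ => gw_nonneg hβ hβ1 i)
          intro i hi
          simp only [mem_filter, mem_range, mem_singleton] at hi ⊢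
          omega
      _ ≤ _ := by simp [gw]; linarith
  · calc _ ≤ ∑ i ∈ ({d, d - 1} : Finset ℕ), gw β i := by
          refine sum_le_sum_of_subset_of_nonneg ?_ (fun i _ _ => gw_nonneg hβ hβ1 i)
          intro i hi
          simp only [mem_filter, mem_range, mem_insert, mem_singleton] at hi ⊢
          omega
      _ = gw β d + gw β (d - 1) := by
          rw [sum_insert, sum_singleton]
          simp only [mem_singleton]; omega
      _ ≤ _ := by
          have h1 : (1 - β) ^ d ≤ (1 - β) ^ (d - 1) :=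
            pow_le_pow_of_le_one (by linarith) (by linarith) (Nat.sub_le _ _)
          have h2 : gw β d ≤ β * (1 - β) ^ (d - 1) := mul_le_mul_of_nonneg_left h1 hβ
          have h3 : gw β (d - 1) = β * (1 - β) ^ (d - 1) := rfl
          rw [h3]; linarith

end gw

section mass

variable {V : Type*} [Fintype V] [LinearOrder V] (G : SimpleGraph V) (R : ℕ) {β : ℝ}
  (hβ : 0 ≤ β) (hβ1 : β ≤ 1)

/-- product weight of a family of radii -/
noncomputable def wt (β : ℝ) (r : V → Fin (R + 1)) : ℝ := ∏ c, gw β (r c)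

include hβ hβ1

lemma wt_nonneg (r : V → Fin (R + 1)) : 0 ≤ wt R β r :=
  prod_nonneg fun _ _ => gw_nonneg hβ hβ1 _

omit hβ hβ1 in
lemma wt_total : ∑ r : V → Fin (R + 1), wt R β r = (1 - (1 - β) ^ (R + 1)) ^ Fintype.card V := by
  classical
  have h := Finset.prod_univ_sum (fun _ : V => (univ : Finset (Fin (R + 1))))
    (fun _ i => gw β i)
  rw [Fintype.piFinset_univ] at h
  unfold wt
  rw [← h]
  have : ∑ i : Fin (R + 1), gw β i = 1 - (1 - β) ^ (R + 1) := by
    rw [← gw_sum_range, Finset.sum_range]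
  rw [this, prod_const, card_univ]

/-- the constraint sets -/
noncomputable def cset (v c c' : V) : Finset (Fin (R + 1)) :=
  if c' < c then univ.filter (fun i => (i : ℕ) + 1 < dd G R c' v)
  else if c' = c then univ.filter (fun i => (i : ℕ) = dd G R c v ∨ (i : ℕ) + 1 = dd G R c v)
  else univ

/-- bounds for the masses of the constraint sets -/
noncomputable def cbd (β : ℝ) (v c c' : V) : ℝ :=
  if c' < c then 1 - (1 - β) ^ (dd G R c' v - 1)
  else if c' = c then 2 * β * (1 - β) ^ (dd G R c v - 1)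
  else 1

lemma cset_mass (v c c' : V) : ∑ i ∈ cset G R v c c', gw β i ≤ cbd G R β v c c' := by
  unfold cset cbd
  split_ifs
  · exact gw_low hβ hβ1 R _
  · exact gw_edge hβ hβ1 R _
  · have : ∑ i : Fin (R + 1), gw β i = 1 - (1 - β) ^ (R + 1) := by
      rw [← gw_sum_range, Finset.sum_range]
    rw [this]
    have : 0 ≤ (1 - β) ^ (R + 1) := pow_nonneg (by linarith) _
    linarith

lemma star_mass (v : V) [DecidablePred fun r : V → Fin (R + 1) => isStar G R r v] :
    ∑ r : V → Fin (R + 1) with isStar G R r v, wt R β r ≤ 2 * β := by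
  classical
  have h0 : ∀ c, 0 ≤ (1 - β) ^ (dd G R c v - 1) := fun c => pow_nonneg (by linarith) _
  have h1 : ∀ c, (1 - β) ^ (dd G R c v - 1) ≤ 1 := fun c => pow_le_one' hβ hβ1 _
  calc ∑ r : V → Fin (R + 1) with isStar G R r v, wt R β r
      ≤ ∑ c, ∑ r ∈ Fintype.piFinset (cset G R v c), wt R β r := by
        refine union_bound _ _ _ _ (fun r => wt_nonneg R hβ hβ1 r) ?_
        intro r hr
        rw [mem_filter] at hr
        obtain ⟨c, hc, hc'⟩ := star_event G R r v hr.2
        refine ⟨c, mem_univ _, ?_⟩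
        rw [Fintype.mem_piFinset]
        intro c'
        unfold cset
        split_ifs with h1 h2
        · simpa using hc c' h1
        · subst h2; simpa using hc'
        · exact mem_univ _
    _ = ∑ c, ∏ c', ∑ i ∈ cset G R v c c', gw β i := by
        refine sum_congr rfl fun c _ => ?_
        rw [Finset.prod_univ_sum]; rfl
    _ ≤ ∑ c, ∏ c', cbd G R β v c c' := by
        refine sum_le_sum fun c _ => prod_le_prod ?_ (fun c' _ => cset_mass G R hβ hβ1 v c c')
        intro c' _
        exact sum_nonneg fun i _ => gw_nonneg hβ hβ1 _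
    _ = ∑ c, 2 * β * ((1 - β) ^ (dd G R c v - 1) *
          ∏ c' ∈ univ with c' < c, (1 - (1 - β) ^ (dd G R c' v - 1))) := by
        refine sum_congr rfl fun c _ => ?_
        unfold cbd
        rw [prod_ite, prod_ite_eq' _ c, if_pos (by simp)]
        ring
    _ = 2 * β * (1 - ∏ c, (1 - (1 - β) ^ (dd G R c v - 1))) := by
        rw [prod_one_sub_ordered, ← mul_sum]
        ring
    _ ≤ 2 * β := by
        have : 0 ≤ ∏ c, (1 - (1 - β) ^ (dd G R c v - 1)) :=
          prod_nonneg fun c _ => by linarith [h1 c]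
        nlinarith
end mass

section exists_decomp

variable {V : Type*} [Fintype V] [LinearOrder V] (G : SimpleGraph V) (R : ℕ) {β : ℝ}
  (hβ : 0 ≤ β) (hβ1 : β ≤ 1)

open Classical in
/-- the push-forward distribution, completed to a probability distribution -/
noncomputable def pμ (β : ℝ) (o : V → Option Bool) : ℝ :=
  ∑ r ∈ univ.filter (fun r : V → Fin (R + 1) => out G R r = o), wt R β r
    + if o = (fun _ => none) then 1 - ∑ r : V → Fin (R + 1), wt R β r else 0

include hβ hβ1

lemma wt_total_le_one : ∑ r : V → Fin (R + 1), wt R β r ≤ 1 := by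
  rw [wt_total]
  have h1 : (1 - β) ^ (R + 1) ≤ 1 := pow_le_one' hβ hβ1 _
  have h0 : 0 ≤ (1 - β) ^ (R + 1) := pow_nonneg (by linarith) _
  exact pow_le_one₀ (by linarith) (by linarith)

lemma wt_total_ge : 1 - Fintype.card V * (1 - β) ^ (R + 1) ≤
    ∑ r : V → Fin (R + 1), wt R β r := by
  rw [wt_total]
  have h1 : (1 - β) ^ (R + 1) ≤ 1 := pow_le_one' hβ hβ1 _
  have h0 : 0 ≤ (1 - β) ^ (R + 1) := pow_nonneg (by linarith) _
  have := one_add_mul_le_pow (a := -(1 - β) ^ (R + 1)) (by linarith) (Fintype.card V)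
  calc _ = 1 + (Fintype.card V : ℝ) * -(1 - β) ^ (R + 1) := by ring
    _ ≤ _ := this
    _ = _ := by ring

/-- The ball carving theorem. -/
theorem exists_decomp (hG : NoShortOdd G (2 * R + 1)) :
    Nonempty (Decomp G (2 * β + Fintype.card V * (1 - β) ^ (R + 1))) := by
  classical
  have htl := wt_total_le_one (V := V) R hβ hβ1
  have htg := wt_total_ge (V := V) R hβ hβ1
  refine ⟨⟨pμ G R β, ?_, ?_, ?_, ?_⟩⟩
  · intro o
    unfold pμ
    refine add_nonneg (sum_nonneg fun r _ => wt_nonneg R hβ hβ1 r) ?_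
    split_ifs
    · linarith
    · exact le_rfl
  · unfold pμ
    rw [sum_add_distrib, Finset.sum_fiberwise, sum_ite_eq' univ _]
    simp
  · intro o ho u v huv hu
    by_cases hex : ∃ r : V → Fin (R + 1), out G R r = o
    · obtain ⟨r, rfl⟩ := hex
      exact out_good G R hG r u v huv hu
    · exfalso
      apply ho
      unfold pμ
      have h1 : univ.filter (fun r : V → Fin (R + 1) => out G R r = o) = ∅ := by
        apply filter_eq_empty_iff.2
        intro r _ hr
        exact hex ⟨r, hr⟩
      rw [h1, sum_empty, zero_add, if_neg]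
      rintro rfl
      exact hu rfl
  · intro v
    unfold pμ
    rw [sum_add_distrib]
    have h1 : ∑ o : V → Option Bool with o v = none,
        ∑ r ∈ univ.filter (fun r : V → Fin (R + 1) => out G R r = o), wt R β r ≤ 2 * β := by
      calc _ = ∑ r : V → Fin (R + 1) with isStar G R r v, wt R β r := by
            rw [sum_fiberwise_eq_sum_filter]
            refine sum_congr ?_ fun _ _ => rfl
            ext r
            simp [out]
        _ ≤ _ := star_mass G R hβ hβ1 v
    have h2 : ∑ o : V → Option Bool with o v = none,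
        (if o = (fun _ => none) then 1 - ∑ r : V → Fin (R + 1), wt R β r else 0)
        ≤ Fintype.card V * (1 - β) ^ (R + 1) := by
      rw [sum_ite_eq']
      split_ifs <;> linarith
    exact add_le_add h1 h2

end exists_decomp

end MP051125H83
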