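import Mathlib
import Pool.Agent.Lib.MP_051125_co_h83.Weights
import Pool.Agent.Lib.MP_051125_co_h83.Merge

/-!
# The probabilistic step
-/

namespace MP051125H83

open SimpleGraph Finset

variable {V C : Type} [Fintype V] [LinearOrder V] [Fintype C] [DecidableEq C]
  {G : C → SimpleGraph V} {p : ℝ} (D : ∀ j, Decomp (G j) p)

/-- the product weight of an outcome -/
noncomputable def W (ω : C → V → Option Bool) : ℝ := ∏ j, (D j).μ (ω j)

lemma W_nonneg (ω : C → V → Option Bool) : 0 ≤ W D ω := prod_nonneg fun j _ => (D j).nonneg _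

lemma W_pi (A : C → Finset (V → Option Bool)) :
    ∑ ω ∈ Fintype.piFinset A, W D ω = ∏ j, ∑ o ∈ A j, (D j).μ o := by
  rw [Finset.prod_univ_sum]; rfl

lemma W_total : ∑ ω, W D ω = 1 := by
  have := W_pi D (fun _ => univ)
  rw [Fintype.piFinset_univ] at this
  rw [this]
  exact prod_eq_one fun j _ => (D j).total

lemma W_good {ω : C → V → Option Bool} (h : W D ω ≠ 0) (j : C) (u v : V)
    (huv : (G j).Adj u v) (hu : ω j u ≠ none) : ω j u ≠ ω j v := by
  refine (D j).good (ω j) ?_ u v huv hu
  intro h0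
  exact h (prod_eq_zero (mem_univ j) h0)

/-- a vertex is starred in all the colours of `I` with probability at most `p ^ |I|` -/
lemma mass_star (hp : 0 ≤ p) (v : V) (I : Finset C) :
    ∑ ω ∈ univ.filter (fun ω : C → V → Option Bool => ∀ j ∈ I, ω j v = none), W D ω
      ≤ p ^ I.card := by
  classical
  have h1 : univ.filter (fun ω : C → V → Option Bool => ∀ j ∈ I, ω j v = none)
      = Fintype.piFinset (fun j => if j ∈ I then univ.filter (fun o : V → Option Bool => o v = none)
          else univ) := by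
    ext ω
    rw [Fintype.mem_piFinset, mem_filter]
    constructor
    · intro h j
      split_ifs with hj
      · simpa using h.2 j hj
      · exact mem_univ _
    · intro h
      refine ⟨mem_univ _, fun j hj => ?_⟩
      have := h j
      rw [if_pos hj] at this
      simpa using this
  rw [h1, W_pi]
  calc _ ≤ ∏ j, (if j ∈ I then p else 1) := by
        refine prod_le_prod (fun j _ => sum_nonneg fun o _ => (D j).nonneg o) fun j _ => ?_
        split_ifs
        · exact (D j).star v
        · exact le_of_eq (D j).total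
    _ = _ := by rw [prod_ite_mem, univ_inter, prod_const]

/-- the witness event for the subcube directions `I` and the witnesses `φ` -/
noncomputable def evA (I : Finset C) (φ : I → V) (j : C) : Finset (V → Option Bool) :=
  if hj : j ∈ I then univ.filter (fun o => o (φ ⟨j, hj⟩) = none)
  else univ.filter (fun o => ∃ b, ∀ i, o (φ i) = some b)

/-- the part of the witness event outside `I` -/
noncomputable def evB (I : Finset C) (φ : I → V) (j : C) : Finset (V → Option Bool) :=
  if j ∈ I then univ
  else univ.filter (fun o => ∃ b, ∀ i, o (φ i) = some b)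

lemma mass_evA (hp : 0 ≤ p) (I : Finset C) (φ : I → V) :
    ∑ ω ∈ Fintype.piFinset (evA I φ), W D ω
      ≤ p ^ I.card * ∑ ω ∈ Fintype.piFinset (evB I φ), W D ω := by
  classical
  rw [W_pi, W_pi]
  have h1 : ∀ j, ∑ o ∈ evA I φ j, (D j).μ o
      ≤ (if j ∈ I then p else 1) * ∑ o ∈ evB I φ j, (D j).μ o := by
    intro j
    unfold evA evB
    split_ifs with hj
    · rw [(D j).total, mul_one]
      exact (D j).star _
    · rw [one_mul]
  calc _ ≤ ∏ j, ((if j ∈ I then p else 1) * ∑ o ∈ evB I φ j, (D j).μ o) :=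
        prod_le_prod (fun j _ => sum_nonneg fun o _ => (D j).nonneg o) fun j _ => h1 j
    _ = _ := by rw [prod_mul_distrib, prod_ite_mem, univ_inter, prod_const]

omit [LinearOrder V] in
lemma count_witness {ω : C → V → Option Bool} [DecidableEq V]
    (hω : ∀ j u v, (G j).Adj u v → ω j u ≠ none → ω j u ≠ ω j v)
    (hcov : ∀ u v, u ≠ v → ∃ j, (G j).Adj u v)
    (I : Finset C) (hI : I.Nonempty)
    (hIH : ∀ W : Finset V, (∀ u ∈ W, ∀ v ∈ W, u ≠ v → ∃ j ∈ I, (G j).Adj u v) →
      W.card ≤ 2 ^ I.card) :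
    (univ.filter (fun φ : I → V => ∀ j, j ∉ I → ∃ b, ∀ i, ω j (φ i) = some b)).card
      ≤ Fintype.card V * (2 ^ I.card) ^ I.card := by
  classical
  obtain ⟨i0, hi0⟩ := hI
  set U : V → Finset V := fun v0 =>
    univ.filter (fun v => ∀ j, j ∉ I → ω j v = ω j v0 ∧ ω j v ≠ none) with hU
  have hUcard : ∀ v0, (U v0).card ≤ 2 ^ I.card := by
    intro v0
    apply hIH
    intro u hu v hv huv
    obtain ⟨j, hj⟩ := hcov u v huv
    refine ⟨j, ?_, hj⟩
    by_contra hjI
    have h1 := (mem_filter.1 hu).2 j hjI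
    have h2 := (mem_filter.1 hv).2 j hjI
    exact hω j u v hj h1.2 (h1.1.trans h2.1.symm)
  calc _ ≤ (univ.biUnion (fun v0 : V => Fintype.piFinset (fun _ : I => U v0))).card := by
        apply card_le_card
        intro φ hφ
        rw [mem_filter] at hφ
        rw [mem_biUnion]
        refine ⟨φ ⟨i0, hi0⟩, mem_univ _, ?_⟩
        rw [Fintype.mem_piFinset]
        intro i
        rw [hU]
        refine mem_filter.2 ⟨mem_univ _, fun j hj => ?_⟩
        obtain ⟨b, hb⟩ := hφ.2 j hj
        rw [hb i, hb ⟨i0, hi0⟩]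
        exact ⟨rfl, by simp⟩
    _ ≤ ∑ v0 : V, (Fintype.piFinset (fun _ : I => U v0)).card := card_biUnion_le
    _ ≤ ∑ _v0 : V, (2 ^ I.card) ^ I.card := by
        refine sum_le_sum fun v0 _ => ?_
        rw [Fintype.card_piFinset, prod_const, card_univ, Fintype.card_coe]
        exact Nat.pow_le_pow_left (hUcard v0) _
    _ = _ := by rw [sum_const, card_univ, smul_eq_mul]

/-- the expected number of witnesses for the directions `I` -/
lemma mass_witness (hp : 0 ≤ p)
    (hcov : ∀ u v, u ≠ v → ∃ j, (G j).Adj u v)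
    (I : Finset C) (hI : I.Nonempty)
    (hIH : ∀ W : Finset V, (∀ u ∈ W, ∀ v ∈ W, u ≠ v → ∃ j ∈ I, (G j).Adj u v) →
      W.card ≤ 2 ^ I.card) :
    ∑ φ : I → V, ∑ ω ∈ Fintype.piFinset (evA I φ), W D ω
      ≤ p ^ I.card * (Fintype.card V * (2 ^ I.card) ^ I.card) := by
  classical
  calc _ ≤ ∑ φ : I → V, p ^ I.card * ∑ ω ∈ Fintype.piFinset (evB I φ), W D ω :=
        sum_le_sum fun φ _ => mass_evA D hp I φ
    _ = p ^ I.card * ∑ φ : I → V, ∑ ω ∈ Fintype.piFinset (evB I φ), W D ω := by
        rw [mul_sum]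
    _ ≤ _ := by
        refine mul_le_mul_of_nonneg_left ?_ (pow_nonneg hp _)
        have hmem : ∀ (φ : I → V) (ω : C → V → Option Bool), ω ∈ Fintype.piFinset (evB I φ) ↔
            ∀ j, j ∉ I → ∃ b, ∀ i, ω j (φ i) = some b := by
          intro φ ω
          rw [Fintype.mem_piFinset]
          constructor
          · intro h j hj
            have := h j
            unfold evB at this
            rw [if_neg hj, mem_filter] at this
            exact this.2
          · intro h j
            unfold evB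
            split_ifs with hj
            · exact mem_univ _
            · exact mem_filter.2 ⟨mem_univ _, h j hj⟩
        calc ∑ φ : I → V, ∑ ω ∈ Fintype.piFinset (evB I φ), W D ω
            = ∑ φ : I → V, ∑ ω, if (∀ j, j ∉ I → ∃ b, ∀ i, ω j (φ i) = some b)
                then W D ω else 0 := by
              refine sum_congr rfl fun φ _ => ?_
              rw [← sum_filter]
              refine sum_congr ?_ fun _ _ => rfl
              ext ω
              rw [hmem, mem_filter]
              simp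
          _ = ∑ ω, ∑ φ : I → V, if (∀ j, j ∉ I → ∃ b, ∀ i, ω j (φ i) = some b)
                then W D ω else 0 := sum_comm
          _ = ∑ ω, ((univ.filter (fun φ : I → V =>
                ∀ j, j ∉ I → ∃ b, ∀ i, ω j (φ i) = some b)).card : ℝ) * W D ω := by
              refine sum_congr rfl fun ω _ => ?_
              rw [← sum_filter, sum_const, nsmul_eq_mul]
          _ ≤ ∑ ω, ((Fintype.card V * (2 ^ I.card) ^ I.card : ℕ) : ℝ) * W D ω := by
              refine sum_le_sum fun ω _ => ?_
              by_cases h0 : W D ω = 0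
              · rw [h0, mul_zero, mul_zero]
              · refine mul_le_mul_of_nonneg_right ?_ (W_nonneg D ω)
                exact_mod_cast count_witness (G := G) (fun j u v => W_good D h0 j u v) hcov I hI hIH
          _ = _ := by
              rw [← mul_sum, W_total, mul_one]; push_cast; ring

/-- a covered subcube gives a witness -/
lemma exists_witness {ω : C → V → Option Bool} {F : C → Option Bool}
    (hF : Covered (fun v j => ω j v) F) :
    ∃ φ : (univ.filter (fun j => F j = none) : Finset C) → V,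
      ω ∈ Fintype.piFinset (evA (univ.filter (fun j => F j = none)) φ) := by
  classical
  have : ∀ i : (univ.filter (fun j => F j = none) : Finset C), ∃ v,
      Inside (fun j => ω j v) F ∧ ω i v = none :=
    fun i => hF i (mem_filter.1 i.2).2
  choose φ hφ using this
  refine ⟨φ, ?_⟩
  rw [Fintype.mem_piFinset]
  intro j
  unfold evA
  split_ifs with hj
  · exact mem_filter.2 ⟨mem_univ _, (hφ ⟨j, hj⟩).2⟩
  · refine mem_filter.2 ⟨mem_univ _, ?_⟩
    have hFj : F j ≠ none := fun h => hj (mem_filter.2 ⟨mem_univ _, h⟩)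
    obtain ⟨b, hb⟩ := Option.ne_none_iff_exists'.1 hFj
    exact ⟨b, fun i => ((hφ i).1 j hFj).trans hb⟩

include D in
/-- **The probabilistic step.** -/
theorem step (hp : 0 ≤ p) (hcov : ∀ u v, u ≠ v → ∃ j, (G j).Adj u v) (K : ℕ) (hK : 1 ≤ K)
    (hIH : ∀ (I : Finset C) (W : Finset V), I.card < 2 * K →
      (∀ u ∈ W, ∀ v ∈ W, u ≠ v → ∃ j ∈ I, (G j).Adj u v) → W.card ≤ 2 ^ I.card)
    (x : ℝ) (hx : (Fintype.card C : ℝ) * p * 2 ^ (2 * K) ≤ x) (hx1 : x ≤ 1)
    (hfin : ((K : ℝ) + 1) * Fintype.card V * x ^ K < 1) :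
    Fintype.card V ≤ 2 ^ Fintype.card C := by
  classical
  have hx0 : 0 ≤ x := le_trans (by positivity) hx
  set n := Fintype.card C with hn
  set N := Fintype.card V with hN
  -- numeric bounds
  have hnp : ∀ k, k < 2 * K → ((n.choose k : ℕ) : ℝ) * (p ^ k * (N * (2 ^ k) ^ k)) ≤ N * x ^ k := by
    intro k hk
    have h1 : ((n.choose k : ℕ) : ℝ) ≤ (n : ℝ) ^ k := by exact_mod_cast Nat.choose_le_pow n k
    have h2 : (2 : ℝ) ^ k ≤ 2 ^ (2 * K) := pow_le_pow_right₀ (by norm_num) hk.le
    calc ((n.choose k : ℕ) : ℝ) * (p ^ k * (N * (2 ^ k) ^ k))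
        ≤ (n : ℝ) ^ k * (p ^ k * (N * (2 ^ (2 * K)) ^ k)) := by gcongr
      _ = N * ((n : ℝ) * p * 2 ^ (2 * K)) ^ k := by rw [mul_pow, mul_pow]; ring
      _ ≤ N * x ^ k := by gcongr
  set E1 : Finset (C → V → Option Bool) :=
    univ.filter (fun ω => ∃ v, K ≤ fdim (fun j => ω j v)) with hE1
  set E2 : Finset (C → V → Option Bool) :=
    univ.filter (fun ω => ∃ F, Covered (fun v j => ω j v) F ∧ K ≤ fdim F ∧ fdim F < 2 * K) with hE2
  have hm1 : ∑ ω ∈ E1, W D ω ≤ N * x ^ K := by
    calc ∑ ω ∈ E1, W D ω ≤ ∑ v : V, ∑ ω ∈ univ.filter (fun ω : C → V → Option Bool =>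
          K ≤ fdim (fun j => ω j v)), W D ω := by
          refine union_bound _ _ _ _ (W_nonneg D) ?_
          intro ω hω
          obtain ⟨v, hv⟩ := (mem_filter.1 hω).2
          exact ⟨v, mem_univ _, mem_filter.2 ⟨mem_univ _, hv⟩⟩
      _ ≤ ∑ v : V, ∑ I ∈ powersetCard K (univ : Finset C),
          ∑ ω ∈ univ.filter (fun ω : C → V → Option Bool => ∀ j ∈ I, ω j v = none), W D ω := by
          refine sum_le_sum fun v _ => union_bound _ _ _ _ (W_nonneg D) ?_
          intro ω hω
          have h := (mem_filter.1 hω).2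
          unfold fdim at h
          obtain ⟨I, hI, hIc⟩ := Finset.exists_subset_card_eq h
          refine ⟨I, mem_powersetCard.2 ⟨subset_univ _, hIc⟩, mem_filter.2 ⟨mem_univ _, ?_⟩⟩
          intro j hj
          exact (mem_filter.1 (hI hj)).2
      _ ≤ ∑ v : V, ∑ I ∈ powersetCard K (univ : Finset C), p ^ K := by
          refine sum_le_sum fun v _ => sum_le_sum fun I hI => ?_
          have := mass_star D hp v I
          rwa [(mem_powersetCard.1 hI).2] at this
      _ = N * ((n.choose K : ℕ) * p ^ K) := by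
          rw [sum_const, sum_const, card_powersetCard, card_univ, card_univ, nsmul_eq_mul,
            nsmul_eq_mul]
      _ ≤ N * x ^ K := by
          refine mul_le_mul_of_nonneg_left ?_ (Nat.cast_nonneg _)
          have h1 : ((n.choose K : ℕ) : ℝ) ≤ (n : ℝ) ^ K := by
            exact_mod_cast Nat.choose_le_pow n K
          calc ((n.choose K : ℕ) : ℝ) * p ^ K ≤ (n : ℝ) ^ K * p ^ K := by gcongr
            _ = ((n : ℝ) * p) ^ K := by rw [mul_pow]
            _ ≤ ((n : ℝ) * p * 2 ^ (2 * K)) ^ K := by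
                have h2 : (1 : ℝ) ≤ 2 ^ (2 * K) := one_le_pow₀ (by norm_num)
                refine pow_le_pow_left₀ (by positivity) ?_ _
                exact le_mul_of_one_le_right (by positivity) h2
            _ ≤ x ^ K := pow_le_pow_left₀ (by positivity) hx _
  have hm2 : ∑ ω ∈ E2, W D ω ≤ K * (N * x ^ K) := by
    calc ∑ ω ∈ E2, W D ω ≤ ∑ k ∈ Ico K (2 * K), ∑ ω ∈ univ.filter (fun ω : C → V → Option Bool =>
          ∃ F, Covered (fun v j => ω j v) F ∧ fdim F = k), W D ω := by
          refine union_bound _ _ _ _ (W_nonneg D) ?_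
          intro ω hω
          obtain ⟨F, hF, h1, h2⟩ := (mem_filter.1 hω).2
          exact ⟨fdim F, mem_Ico.2 ⟨h1, h2⟩, mem_filter.2 ⟨mem_univ _, F, hF, rfl⟩⟩
      _ ≤ ∑ k ∈ Ico K (2 * K), ∑ I ∈ powersetCard k (univ : Finset C),
          ∑ ω ∈ univ.filter (fun ω : C → V → Option Bool =>
            ∃ φ : I → V, ω ∈ Fintype.piFinset (evA I φ)), W D ω := by
          refine sum_le_sum fun k _ => union_bound _ _ _ _ (W_nonneg D) ?_
          intro ω hω
          obtain ⟨F, hF, hk⟩ := (mem_filter.1 hω).2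
          exact ⟨univ.filter (fun j => F j = none), mem_powersetCard.2 ⟨subset_univ _, hk⟩,
            mem_filter.2 ⟨mem_univ _, exists_witness hF⟩⟩
      _ ≤ ∑ k ∈ Ico K (2 * K), ∑ I ∈ powersetCard k (univ : Finset C),
            ∑ φ : I → V, ∑ ω ∈ Fintype.piFinset (evA I φ), W D ω := by
          refine sum_le_sum fun k _ => sum_le_sum fun I _ =>
            union_bound _ _ _ _ (W_nonneg D) ?_
          intro ω hω
          obtain ⟨φ, hφ⟩ := (mem_filter.1 hω).2
          exact ⟨φ, mem_univ _, hφ⟩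
      _ ≤ ∑ k ∈ Ico K (2 * K), ∑ I ∈ powersetCard k (univ : Finset C),
            p ^ k * (N * (2 ^ k) ^ k) := by
          refine sum_le_sum fun k hk => sum_le_sum fun I hI => ?_
          have hIk : I.card = k := (mem_powersetCard.1 hI).2
          have hk' := mem_Ico.1 hk
          have hIne : I.Nonempty := card_pos.1 (by omega)
          have := mass_witness D hp hcov I hIne (fun W hW => hIH I W (by omega) hW)
          rwa [hIk] at this
      _ = ∑ k ∈ Ico K (2 * K), ((n.choose k : ℕ) : ℝ) * (p ^ k * (N * (2 ^ k) ^ k)) := by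
          refine sum_congr rfl fun k _ => ?_
          rw [sum_const, card_powersetCard, card_univ, nsmul_eq_mul]
      _ ≤ ∑ k ∈ Ico K (2 * K), N * x ^ K := by
          refine sum_le_sum fun k hk => ?_
          have hk' := mem_Ico.1 hk
          refine (hnp k hk'.2).trans ?_
          refine mul_le_mul_of_nonneg_left ?_ (Nat.cast_nonneg _)
          exact pow_le_pow_of_le_one hx0 hx1 hk'.1
      _ = K * (N * x ^ K) := by
          rw [sum_const, Nat.card_Ico, nsmul_eq_mul]
          congr 2
          omega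
  have hex : ∃ ω, ω ∉ E1 ∧ ω ∉ E2 ∧ W D ω ≠ 0 := by
    by_contra hcon
    push Not at hcon
    have h1 : ∑ ω, W D ω ≤ ∑ ω ∈ E1 ∪ E2, W D ω := by
      rw [← sum_subset (subset_univ (E1 ∪ E2))]
      intro ω _ hω
      rw [mem_union, not_or] at hω
      exact hcon ω hω.1 hω.2
    have h2 : ∑ ω ∈ E1 ∪ E2, W D ω ≤ ∑ ω ∈ E1, W D ω + ∑ ω ∈ E2, W D ω := by
      rw [← sum_union_inter]
      have : 0 ≤ ∑ ω ∈ E1 ∩ E2, W D ω := sum_nonneg fun ω _ => W_nonneg D ω
      linarith
    rw [W_total] at h1
    nlinarith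
  obtain ⟨ω, h1, h2, h0⟩ := hex
  refine merge (fun v j => ω j v) K ?_ ?_ ?_
  · intro v
    by_contra hcon
    push Not at hcon
    exact h1 (mem_filter.2 ⟨mem_univ _, v, hcon⟩)
  · intro F hF hcon
    exact h2 (mem_filter.2 ⟨mem_univ _, F, hF, hcon⟩)
  · intro F W' hF hW'
    have := hIH (univ.filter (fun j => F j = none)) W' (by unfold fdim at hF; omega) ?_
    · exact this
    · intro u hu v hv huv
      obtain ⟨j, hj⟩ := hcov u v huv
      refine ⟨j, mem_filter.2 ⟨mem_univ _, ?_⟩, hj⟩
      by_contra hFj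
      have a1 := hW' u hu j hFj
      have a2 := hW' v hv j hFj
      exact W_good D h0 j u v hj (by rw [show ω j u = F j from a1]; exact hFj)
        (a1.trans a2.symm)

end MP051125H83
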