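import Mathlib
import Pool.Agent.Lib.MP_051125_co_h83.Step
import Pool.Agent.Lib.MP_051125_co_h83.Defs

/-!
# The induction
-/

namespace MP051125H83

open SimpleGraph Finset

/-- the bound for the length of the odd cycle -/
def Lb (n : ℕ) : ℕ := n ^ 2 * 2 ^ (3 * Nat.sqrt n + 11)

lemma Lb_mono {k n : ℕ} (h : k ≤ n) : Lb k ≤ Lb n := by
  unfold Lb
  have := Nat.sqrt_le_sqrt h
  exact Nat.mul_le_mul (Nat.pow_le_pow_left h 2)
    (Nat.pow_le_pow_right (by norm_num) (by omega))

/-- the statement proved by induction -/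
def P (n : ℕ) : Prop := ∀ (V C : Type) [Fintype V] [LinearOrder V] [Fintype C] [DecidableEq C]
  (G : C → SimpleGraph V), Fintype.card C = n → (∀ j, NoShortOdd (G j) (Lb n)) →
  (∀ u v, u ≠ v → ∃ j, (G j).Adj u v) → Fintype.card V ≤ 2 ^ n

/-- the inclusion of an induced subgraph -/
def inclHom {V : Type} (G : SimpleGraph V) (S : Finset V) :
    (G.comap (Subtype.val : S → V)) →g G where
  toFun := Subtype.val
  map_rel' := fun h => h

lemma P_finset {n : ℕ} (ih : ∀ m < n, P m) {V C : Type} [Fintype V] [LinearOrder V]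
    [Fintype C] [DecidableEq C] (G : C → SimpleGraph V) (hG : ∀ j, NoShortOdd (G j) (Lb n))
    (I : Finset C) (W : Finset V) (hI : I.card < n)
    (hW : ∀ u ∈ W, ∀ v ∈ W, u ≠ v → ∃ j ∈ I, (G j).Adj u v) : W.card ≤ 2 ^ I.card := by
  have := ih I.card hI W I (fun j => (G j).comap (Subtype.val : W → V)) (Fintype.card_coe I)
    (fun j => (((hG j).mono (Lb_mono hI.le)).comap (inclHom (G j) W))) ?_
  · rwa [Fintype.card_coe] at this
  · intro u v huv
    obtain ⟨j, hj, hadj⟩ := hW u u.2 v v.2 (fun h => huv (Subtype.ext h))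
    exact ⟨⟨j, hj⟩, hadj⟩

lemma half_pow {B : ℕ} (hB : 1 ≤ B) : (1 - 1 / (B : ℝ)) ^ B ≤ 1 / 2 := by
  have hB0 : (0 : ℝ) < B := by exact_mod_cast hB
  have h1 : (1 : ℝ) / B ≤ 1 := by rw [div_le_one hB0]; exact_mod_cast hB
  have h2 : 0 < (1 : ℝ) / B := by positivity
  have h3 : 2 ≤ (1 + 1 / (B : ℝ)) ^ B := by
    have := one_add_mul_le_pow (a := 1 / (B : ℝ)) (by linarith) B
    calc (2 : ℝ) = 1 + (B : ℝ) * (1 / B) := by field_simp; norm_num
      _ ≤ _ := this
  have h4 : (1 - 1 / (B : ℝ)) ^ B * (1 + 1 / (B : ℝ)) ^ B ≤ 1 := by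
    rw [← mul_pow]
    apply pow_le_one₀
    · exact mul_nonneg (by linarith) (by linarith)
    · nlinarith
  have h5 : 0 ≤ (1 - 1 / (B : ℝ)) ^ B := pow_nonneg (by linarith) _
  nlinarith

theorem main (n : ℕ) : P n := by
  induction n using Nat.strong_induction_on with
  | _ n ih =>
  intro V C _ _ _ _ G hC hG hcov
  rcases Nat.lt_or_ge n 2 with hn | hn
  · interval_cases n
    · by_contra hcon
      push Not at hcon
      obtain ⟨u, v, huv⟩ := Fintype.one_lt_card_iff.1 (by simpa using hcon)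
      obtain ⟨j, -⟩ := hcov u v huv
      have := Fintype.card_eq_zero_iff.1 hC
      exact this.elim j
    · by_contra hcon
      push Not at hcon
      obtain ⟨a, b, c, hab, hac, hbc⟩ := Fintype.two_lt_card_iff.1 (by simpa using hcon)
      have hsub : Subsingleton C := Fintype.card_le_one_iff_subsingleton.1 hC.le
      obtain ⟨j, hj⟩ := hcov a b hab
      obtain ⟨j', hj'⟩ := hcov b c hbc
      obtain ⟨j'', hj''⟩ := hcov c a hac.symm
      rw [Subsingleton.elim j' j] at hj'
      rw [Subsingleton.elim j'' j] at hj''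
      have := hG j a (Walk.cons hj (Walk.cons hj' (Walk.cons hj'' Walk.nil))) (by
        simp only [Walk.length_cons, Walk.length_nil]; decide)
      simp only [Walk.length_cons, Walk.length_nil, Lb] at this
      norm_num at this
  · by_contra hcon
    push Not at hcon
    obtain ⟨S, -, hS⟩ := Finset.exists_subset_card_eq (s := (univ : Finset V)) (n := 2 ^ n + 1)
      (by rw [card_univ]; exact hcon)
    set s := Nat.sqrt n with hs
    have hs1 : 1 ≤ s := by
      rw [hs, Nat.le_sqrt]; omega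
    have hsn : s * s ≤ n := Nat.sqrt_le n
    have hns : n < (s + 1) * (s + 1) := Nat.lt_succ_sqrt n
    have h2s : 2 * s ≤ n := by
      rcases Nat.lt_or_ge s 2 with h | h
      · omega
      · nlinarith
    set B : ℕ := n * 2 ^ (3 * s + 7) with hB
    set t : ℕ := 2 * n + 3 * s + 7 with ht
    have hB1 : 1 ≤ B := by
      rw [hB]; exact Nat.mul_pos (by omega) (by positivity)
    set β : ℝ := 1 / (B : ℝ) with hβ
    have hB0 : (0 : ℝ) < B := by exact_mod_cast hB1
    have hβ0 : 0 ≤ β := (one_div_pos.2 hB0).le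
    have hβ1 : β ≤ 1 := by rw [hβ, div_le_one hB0]; exact_mod_cast hB1
    have hBt : 1 ≤ B * t := Nat.mul_pos hB1 (by omega)
    obtain ⟨R, hR⟩ : ∃ R, R + 1 = B * t := ⟨B * t - 1, by omega⟩
    have hRL : 2 * R + 1 ≤ Lb n := by
      have h1 : 2 * R + 1 ≤ 2 * (B * t) := by omega
      refine h1.trans ?_
      unfold Lb
      rw [hB, ht, ← hs]
      calc 2 * (n * 2 ^ (3 * s + 7) * (2 * n + 3 * s + 7))
          = n * 2 ^ (3 * s + 7) * (2 * (2 * n + 3 * s + 7)) := by ring
        _ ≤ n * 2 ^ (3 * s + 7) * (16 * n) := Nat.mul_le_mul_left _ (by omega)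
        _ = n ^ 2 * 2 ^ (3 * s + 11) := by rw [pow_add, pow_add]; ring
    -- the graphs on `S`
    set G' : C → SimpleGraph S := fun j => (G j).comap (Subtype.val : S → V) with hG'
    have hG'L : ∀ j, NoShortOdd (G' j) (Lb n) := fun j => (hG j).comap (inclHom (G j) S)
    have hcov' : ∀ u v, u ≠ v → ∃ j, (G' j).Adj u v := by
      intro u v huv
      obtain ⟨j, hj⟩ := hcov u v (fun h => huv (Subtype.ext h))
      exact ⟨j, hj⟩
    have hcard : Fintype.card S = 2 ^ n + 1 := by rw [Fintype.card_coe, hS]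
    have hD : ∀ j, Nonempty (Decomp (G' j)
        (2 * β + Fintype.card S * (1 - β) ^ (R + 1))) :=
      fun j => exists_decomp (G' j) R hβ0 hβ1 ((hG'L j).mono hRL)
    set D := fun j => (hD j).some
    set p : ℝ := 2 * β + Fintype.card S * (1 - β) ^ (R + 1) with hp
    have hp0 : 0 ≤ p := by
      rw [hp]
      have : 0 ≤ (1 - β) ^ (R + 1) := pow_nonneg (by linarith) _
      exact add_nonneg (mul_nonneg (by norm_num) hβ0) (mul_nonneg (Nat.cast_nonneg _) this)
    have hN : (Fintype.card S : ℝ) ≤ 2 ^ (n + 1) := by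
      rw [hcard, pow_succ]
      push_cast
      have : (1 : ℝ) ≤ 2 ^ n := one_le_pow₀ (by norm_num)
      linarith
    have hpβ : p ≤ 4 * β := by
      have h1 : (1 - β) ^ (R + 1) ≤ (1 / 2) ^ t := by
        rw [hR, pow_mul]
        exact pow_le_pow_left₀ (pow_nonneg (by linarith) _) (half_pow hB1) _
      have h2 : (Fintype.card S : ℝ) * (1 - β) ^ (R + 1) ≤ 2 * β := by
        have h3 : (B : ℝ) ≤ 2 ^ (n + (3 * s + 7)) := by
          have : n ≤ 2 ^ n := Nat.lt_two_pow_self.le
          have h4 : B ≤ 2 ^ (n + (3 * s + 7)) := by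
            rw [hB, pow_add 2 n (3 * s + 7)]; exact Nat.mul_le_mul_right _ this
          exact_mod_cast h4
        have h4 : (2 : ℝ) ^ (n + 1) * (1 / 2) ^ t ≤ 2 / B := by
          rw [le_div_iff₀ hB0]
          calc (2 : ℝ) ^ (n + 1) * (1 / 2) ^ t * B
              ≤ 2 ^ (n + 1) * (1 / 2) ^ t * 2 ^ (n + (3 * s + 7)) := by gcongr
            _ = (2 ^ t * 2) * (1 / 2) ^ t := by
                rw [ht, show 2 * n + 3 * s + 7 = n + (n + (3 * s + 7)) by ring]
                rw [pow_add (2 : ℝ) n (n + (3 * s + 7))]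
                ring
            _ = 2 := by
                rw [mul_right_comm, ← mul_pow]; norm_num
        have h5 : 0 ≤ (1 - β) ^ (R + 1) := pow_nonneg (by linarith) _
        calc (Fintype.card S : ℝ) * (1 - β) ^ (R + 1) ≤ 2 ^ (n + 1) * (1 / 2) ^ t := by
              gcongr
          _ ≤ 2 / B := h4
          _ = 2 * β := by rw [hβ]; ring
      rw [hp]; linarith
    have key := step D hp0 hcov' s hs1
      (fun I W hI hW => P_finset ih G' hG'L I W (by omega) hW)
      ((1 / 2) ^ (s + 5)) ?_ ?_ ?_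
    · rw [hcard, hC] at key
      omega
    · rw [hC]
      have hn0 : (0 : ℝ) < n := by exact_mod_cast (by omega : 0 < n)
      calc (n : ℝ) * p * 2 ^ (2 * s) ≤ n * (4 * β) * 2 ^ (2 * s) := by gcongr
        _ = (1 / 2) ^ (s + 5) := by
            rw [hβ, hB]
            push_cast
            rw [show 3 * s + 7 = 2 * s + (s + 5) + 2 by ring, pow_add, pow_add, one_div_pow]
            field_simp
            norm_num
    · exact pow_le_one₀ (by norm_num) (by norm_num)
    · have h1 : ((s : ℝ) + 1) ≤ 2 ^ s := by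
        have : s + 1 ≤ 2 ^ s := Nat.lt_two_pow_self
        exact_mod_cast this
      rw [← pow_mul]
      calc ((s : ℝ) + 1) * Fintype.card S * (1 / 2) ^ ((s + 5) * s)
          ≤ 2 ^ s * 2 ^ (n + 1) * (1 / 2) ^ ((s + 5) * s) := by gcongr
        _ ≤ 2 ^ s * 2 ^ (s * s + 2 * s + 1) * (1 / 2) ^ ((s + 5) * s) := by
            have : n + 1 ≤ s * s + 2 * s + 1 := by
              have e : (s + 1) * (s + 1) = s * s + 2 * s + 1 := by ring
              omega
            have h2 : (2 : ℝ) ^ (n + 1) ≤ 2 ^ (s * s + 2 * s + 1) :=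
              pow_le_pow_right₀ (by norm_num) this
            gcongr
        _ = 2 ^ (s * s + 3 * s + 1) * (1 / 2) ^ ((s + 5) * s) := by
            rw [← pow_add]; congr 2; ring
        _ ≤ 2 ^ (s * s + 3 * s + 1) * (1 / 2) ^ (s * s + 3 * s + 2) := by
            have : s * s + 3 * s + 2 ≤ (s + 5) * s := by
              have e : (s + 5) * s = s * s + 5 * s := by ring
              omega
            have h2 : (1 / 2 : ℝ) ^ ((s + 5) * s) ≤ (1 / 2) ^ (s * s + 3 * s + 2) :=
              pow_le_pow_of_le_one (by norm_num) (by norm_num) this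
            gcongr
        _ = 1 / 2 := by
            rw [pow_succ (1 / 2 : ℝ) (s * s + 3 * s + 1), ← mul_assoc, ← mul_pow]; norm_num
        _ < 1 := by norm_num

/-- Every `n`-colouring of the edges of `K_{2^n+1}` has a monochromatic odd cycle of length at
most `n^2 * 2^(3⌊√n⌋+11)`. -/
theorem oddCycleAtMost_Lb {n : ℕ} : OddCycleAtMost n (Lb n) := by
  intro c
  by_contra hcon
  push Not at hcon
  have := main n (Fin (2 ^ n + 1)) (Fin n) (fun i => colourGraph c i) (Fintype.card_fin n) ?_ ?_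
  · rw [Fintype.card_fin] at this; omega
  · intro i v w hw
    obtain ⟨x, w', hc, hodd, hle⟩ := exists_odd_cycle_of_odd_closed_walk w hw
    exact lt_of_lt_of_le (hcon i x w' hc hodd) hle
  · intro u v huv
    exact ⟨c s(u, v), huv, rfl⟩

theorem f_le {n : ℕ} : f n ≤ Lb n := Nat.sInf_le oddCycleAtMost_Lb

theorem f_spec {n : ℕ} : OddCycleAtMost n (f n) :=
  Nat.sInf_mem (s := {m | OddCycleAtMost n m}) ⟨_, oddCycleAtMost_Lb⟩

theorem f_le_real (n : ℕ) : (f n : ℝ) ≤ 2048 * (n : ℝ) ^ 2 * 2 ^ (3 * Real.sqrt n) := by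
  have h1 : (f n : ℝ) ≤ (Lb n : ℝ) := by exact_mod_cast f_le
  refine h1.trans ?_
  unfold Lb
  push_cast
  rw [pow_add]
  have h2 : (2 : ℝ) ^ (3 * Nat.sqrt n) ≤ 2 ^ (3 * Real.sqrt n) := by
    rw [← Real.rpow_natCast]
    apply Real.rpow_le_rpow_of_exponent_le (by norm_num)
    push_cast
    have := Real.nat_sqrt_le_real_sqrt (a := n)
    linarith
  calc (n : ℝ) ^ 2 * (2 ^ (3 * Nat.sqrt n) * 2 ^ 11)
      ≤ (n : ℝ) ^ 2 * (2 ^ (3 * Real.sqrt n) * 2 ^ 11) := by gcongr
    _ = _ := by norm_num; ring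

end MP051125H83
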