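import Pool.Agent.Lib.MP_051125_co_h69.Norm

/-!
# Norm estimate for products of kernels, with vertex dependent bounds

The rank argument of `MP_051125_co_h69/Norm.lean` with the constant `φ` replaced by numbers
`ψ i u` which depend on the graph and on the vertex.
-/

namespace MP051125H69

set_option linter.unusedSectionVars false

open Finset

variable {V : Type*} [Fintype V] {H : Type*} [NormedAddCommGroup H] [InnerProductSpace ℝ H]

/-- The weighted squared norm. -/
noncomputable def Qw (β : V → ℝ) (x : V → H) : ℝ := ∑ u, β u * ‖x u‖ ^ 2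

lemma Qw_add (β γ : V → ℝ) (x : V → H) : Qw (fun u => β u + γ u) x = Qw β x + Qw γ x := by
  simp [Qw, add_mul, sum_add_distrib]

lemma Qw_const (b : ℝ) (x : V → H) : Qw (fun _ => b) x = b * Q x := by
  simp [Qw, Q, mul_sum]

variable {ι : Type*} {G : ι → SimpleGraph V}

variable (G) in
/-- The kernel is bounded by the weights `β` on all pairs of complete sets. -/
def BddW (l : List ι) (K : Ker V H) (β : V → ℝ) : Prop :=
  ∀ X Y : Set V, Cmp G l X → Cmp G l Y → ∀ x y : V → H, (∀ u, u ∉ X → x u = 0) →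
    (∀ v, v ∉ Y → y v = 0) → |B K x y| ≤ 1 / 2 * (Qw β x + Qw β y)

lemma BddW.add {l : List ι} {K K' : Ker V H} {β γ : V → ℝ} (h : BddW G l K β)
    (h' : BddW G l K' γ) : BddW G l (K + K') (fun u => β u + γ u) := by
  intro X Y hX hY x y hx hy
  rw [B_add, Qw_add, Qw_add]
  have h1 := h X Y hX hY x y hx hy
  have h2 := h' X Y hX hY x y hx hy
  calc |B K x y + B K' x y| ≤ |B K x y| + |B K' x y| := abs_add_le _ _
    _ ≤ _ := by linarith

lemma BddW.sub {l : List ι} {K K' : Ker V H} {β γ : V → ℝ} (h : BddW G l K β)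
    (h' : BddW G l K' γ) : BddW G l (K - K') (fun u => β u + γ u) := by
  intro X Y hX hY x y hx hy
  rw [B_sub, Qw_add, Qw_add]
  have h1 := h X Y hX hY x y hx hy
  have h2 := h' X Y hX hY x y hx hy
  calc |B K x y - B K' x y| ≤ |B K x y| + |B K' x y| := abs_sub _ _
    _ ≤ _ := by linarith

lemma BddW.congr {l l' : List ι} (h : ∀ j, j ∈ l ↔ j ∈ l') {K : Ker V H} {β : V → ℝ}
    (hK : BddW G l K β) : BddW G l' K β :=
  fun X Y hX hY => hK X Y (hX.congr fun j => (h j).symm) (hY.congr fun j => (h j).symm)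

namespace Sys

variable {κ : Type*} [Fintype κ] {φ : ℝ} (S : Sys G H κ φ)

/-- The vertex dependent bounds. -/
structure Wt (ψ : ι → V → ℝ) : Prop where
  nonneg : ∀ i u, 0 ≤ ψ i u
  bx : ∀ i u ξ, ∑ k, ‖S.x i k u ξ‖ ^ 2 ≤ ψ i u * ‖ξ‖ ^ 2
  by_ : ∀ i u ξ, ∑ k, ‖S.y i k u ξ‖ ^ 2 ≤ ψ i u * ‖ξ‖ ^ 2

variable {S} {ψ : ι → V → ℝ}

lemma PB.bddW {l : List ι} (hl : l.Nodup) (h : S.PB l) : BddW G l (S.Tl l) (fun _ => 2) := by
  intro X Y hX hY x y hx hy
  have h1 := PB.bdd S hl h X Y hX hY x y hx hy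
  rw [Qw_const, Qw_const]
  linarith

/-- Multiplication by `M i`. -/
lemma bddW_mul (hψ : S.Wt ψ) {i : ι} {l : List ι} {K : Ker V H} {β : V → ℝ} (hβ : ∀ u, 0 ≤ β u)
    (hK : ∀ p ∈ S.A i, ∀ u v, Commute p (K u v)) (h : BddW G l K β) :
    BddW G (i :: l) (S.M i * K) (fun u => ψ i u * β u) := by
  intro X Y hX hY x y hx hy
  have key : B (S.M i * K) x y = ∑ k, B K (dg (S.x i k) x) (dg (S.y i k) y) := by
    unfold B
    conv_rhs => rw [sum_comm]
    refine sum_congr rfl fun u _ => ?_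
    conv_rhs => rw [sum_comm]
    refine sum_congr rfl fun v _ => ?_
    have h3 : (S.M i * K) u v = ∑ k, S.x i k u * (K u v * S.y i k v) := by
      simp only [Pi.mul_apply, M, sum_mul]
      refine sum_congr rfl fun k _ => ?_
      rw [mul_assoc, (hK _ (S.hy i k v) u v).eq]
    rw [h3, LinearMap.sum_apply, inner_sum]
    refine sum_congr rfl fun k _ => ?_
    rw [dg_apply, dg_apply, S.sx]
    rfl
  have hX' : ∀ (I : Set V), (∀ u ∈ I, ∀ v ∈ I, ¬ (G i).Adj u v) → ∀ Z : Set V,
      Cmp G (i :: l) Z → Cmp G l (Z ∩ I) := by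
    intro I hI Z hZ u hu v hv huv
    obtain ⟨j, hj, hadj⟩ := hZ u hu.1 v hv.1 huv
    rw [List.mem_cons] at hj
    rcases hj with rfl | hj
    · exact absurd hadj (hI u hu.2 v hv.2)
    · exact ⟨j, hj, hadj⟩
  have hk : ∀ k, |B K (dg (S.x i k) x) (dg (S.y i k) y)| ≤
      1 / 2 * (Qw β (dg (S.x i k) x) + Qw β (dg (S.y i k) y)) := by
    intro k
    refine h (X ∩ {u | S.x i k u ≠ 0}) (Y ∩ {u | S.y i k u ≠ 0})
      (hX' _ (fun u hu v hv => S.indx i k u v hu hv) X hX)
      (hX' _ (fun u hu v hv => S.indy i k u v hu hv) Y hY) _ _ ?_ ?_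
    · intro u hu
      rw [dg_apply]
      by_cases h1 : u ∈ X
      · have : S.x i k u = 0 := by
          by_contra h2
          exact hu ⟨h1, h2⟩
        rw [this]; rfl
      · rw [hx u h1]; simp
    · intro u hu
      rw [dg_apply]
      by_cases h1 : u ∈ Y
      · have : S.y i k u = 0 := by
          by_contra h2
          exact hu ⟨h1, h2⟩
        rw [this]; rfl
      · rw [hy u h1]; simp
  have hQx : ∑ k, Qw β (dg (S.x i k) x) ≤ Qw (fun u => ψ i u * β u) x := by
    unfold Qw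
    rw [sum_comm]
    refine sum_le_sum fun u _ => ?_
    rw [← mul_sum]
    calc β u * ∑ k, ‖dg (S.x i k) x u‖ ^ 2 ≤ β u * (ψ i u * ‖x u‖ ^ 2) :=
          mul_le_mul_of_nonneg_left (hψ.bx i u (x u)) (hβ u)
      _ = ψ i u * β u * ‖x u‖ ^ 2 := by ring
  have hQy : ∑ k, Qw β (dg (S.y i k) y) ≤ Qw (fun u => ψ i u * β u) y := by
    unfold Qw
    rw [sum_comm]
    refine sum_le_sum fun u _ => ?_
    rw [← mul_sum]
    calc β u * ∑ k, ‖dg (S.y i k) y u‖ ^ 2 ≤ β u * (ψ i u * ‖y u‖ ^ 2) :=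
          mul_le_mul_of_nonneg_left (hψ.by_ i u (y u)) (hβ u)
      _ = ψ i u * β u * ‖y u‖ ^ 2 := by ring
  rw [key]
  calc |∑ k, B K (dg (S.x i k) x) (dg (S.y i k) y)|
      ≤ ∑ k, |B K (dg (S.x i k) x) (dg (S.y i k) y)| := abs_sum_le_sum_abs _ _
    _ ≤ ∑ k, 1 / 2 * (Qw β (dg (S.x i k) x) + Qw β (dg (S.y i k) y)) :=
        sum_le_sum fun k _ => hk k
    _ = 1 / 2 * (∑ k, Qw β (dg (S.x i k) x) + ∑ k, Qw β (dg (S.y i k) y)) := by
        rw [← mul_sum, sum_add_distrib]
    _ ≤ _ := by linarith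

/-- The product of the `1 + ψ i u`. -/
noncomputable def pr (ψ : ι → V → ℝ) (l : List ι) (u : V) : ℝ := (l.map fun i => 1 + ψ i u).prod

lemma pr_nil (u : V) : pr ψ [] u = 1 := by simp [pr]

lemma pr_cons (i : ι) (l : List ι) (u : V) : pr ψ (i :: l) u = (1 + ψ i u) * pr ψ l u := by
  simp [pr]

lemma pr_nonneg (hψ : ∀ i u, 0 ≤ ψ i u) (l : List ι) (u : V) : 0 ≤ pr ψ l u := by
  induction l with
  | nil => rw [pr_nil]; exact zero_le_one
  | cons i l ih =>
    rw [pr_cons]
    have := hψ i u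
    positivity

lemma bddW_TR (hψ : S.Wt ψ) : ∀ (C A : List ι), (A ++ C).Nodup →
    (∀ l : List ι, l.Nodup → l.length ≤ (A ++ C).length → S.PB l) →
    BddW G (A ++ C) (S.Tl A * S.Rl C) (fun u => 2 * pr ψ C u) := by
  intro C
  induction C with
  | nil =>
    intro A hA h
    rw [List.append_nil] at hA h ⊢
    simp only [pr_nil]
    rw [Rl_nil, mul_one, mul_one]
    exact PB.bddW hA (h A hA le_rfl)
  | cons i C ih =>
    intro A hA h
    have hperm : (i :: (A ++ C)).Nodup := by
      rw [List.nodup_middle] at hA; exact hA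
    have hperm' := hperm
    rw [List.nodup_cons] at hperm
    have hiA : i ∉ A := fun h' => hperm.1 (List.mem_append_left _ h')
    have hiC : i ∉ C := fun h' => hperm.1 (List.mem_append_right _ h')
    have e : S.Tl A * S.Rl (i :: C) = S.Tl (i :: A) * S.Rl C - S.M i * (S.Tl A * S.Rl C) := by
      funext u v
      rw [Tl_cons, Rl_cons]
      simp only [Pi.mul_apply, Pi.sub_apply]
      have h1 := (S.comm_Tl (S.T_mem i u v) hiA u v).eq
      have h2 := (S.comm_Tl (S.M_mem i u v) hiA u v).eq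
      rw [← mul_assoc, mul_sub, ← h1, ← h2, sub_mul, mul_assoc (S.M i u v)]
    rw [e]
    have h1 := ih (i :: A) hperm' (fun l hl hlen => h l hl (by
      simp only [List.cons_append, List.length_cons, List.length_append] at hlen ⊢; omega))
    have h2 := ih A hperm.2 (fun l hl hlen => h l hl (by
      simp only [List.length_cons, List.length_append] at hlen ⊢; omega))
    have h3 := bddW_mul hψ (i := i)
      (fun u => mul_nonneg zero_le_two (pr_nonneg hψ.nonneg C u)) (fun p hp u v =>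
      (S.comm_Tl hp hiA u v).mul_right (S.comm_Rl hp hiC u v)) h2
    have h4 := h1.sub h3
    have h5 : (fun u => 2 * pr ψ (i :: C) u) =
        fun u => 2 * pr ψ C u + ψ i u * (2 * pr ψ C u) := by
      funext u
      rw [pr_cons]; ring
    rw [h5]
    refine h4.congr fun j => ?_
    simp only [List.cons_append, List.mem_cons, List.mem_append]; tauto

lemma bddW_diff (hψ : S.Wt ψ) : ∀ (C A : List ι), (A ++ C).Nodup →
    (∀ l : List ι, l.Nodup → l.length < (A ++ C).length → S.PB l) →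
    BddW G (A ++ C) (S.Tl A * (S.Tl C - S.Rl C)) (fun u => 2 * (pr ψ C u - 1)) := by
  intro C
  induction C with
  | nil =>
    intro A hA h
    rw [Rl_nil, Tl_nil, sub_self, mul_zero]
    intro X Y _ _ x y _ _
    simp [B, pr_nil, Qw]
  | cons i C ih =>
    intro A hA h
    have hperm : (i :: (A ++ C)).Nodup := by
      rw [List.nodup_middle] at hA; exact hA
    have hperm' := hperm
    rw [List.nodup_cons] at hperm
    have hiA : i ∉ A := fun h' => hperm.1 (List.mem_append_left _ h')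
    have hiC : i ∉ C := fun h' => hperm.1 (List.mem_append_right _ h')
    have e : S.Tl A * (S.Tl (i :: C) - S.Rl (i :: C)) =
        S.Tl (i :: A) * (S.Tl C - S.Rl C) + S.M i * (S.Tl A * S.Rl C) := by
      funext u v
      rw [Tl_cons, Rl_cons, Tl_cons]
      simp only [Pi.mul_apply, Pi.sub_apply, Pi.add_apply]
      have h1 := (S.comm_Tl (S.T_mem i u v) hiA u v).eq
      have h2 := (S.comm_Tl (S.M_mem i u v) hiA u v).eq
      have h3 : S.T i u v * S.Tl C u v - (S.T i u v - S.M i u v) * S.Rl C u v =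
          S.T i u v * (S.Tl C u v - S.Rl C u v) + S.M i u v * S.Rl C u v := by noncomm_ring
      rw [h3, mul_add, ← mul_assoc, ← mul_assoc, h1, ← h2, mul_assoc (S.M i u v)]
    rw [e]
    have h1 := ih (i :: A) hperm' (fun l hl hlen => h l hl (by
      simp only [List.cons_append, List.length_cons, List.length_append] at hlen ⊢; omega))
    have h2 := bddW_TR hψ C A hperm.2 (fun l hl hlen => h l hl (by
      simp only [List.length_cons, List.length_append] at hlen ⊢; omega))
    have h3 := bddW_mul hψ (i := i)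
      (fun u => mul_nonneg zero_le_two (pr_nonneg hψ.nonneg C u)) (fun p hp u v =>
      (S.comm_Tl hp hiA u v).mul_right (S.comm_Rl hp hiC u v)) h2
    have h4 := h1.add h3
    have h5 : (fun u => 2 * (pr ψ (i :: C) u - 1)) =
        fun u => 2 * (pr ψ C u - 1) + ψ i u * (2 * pr ψ C u) := by
      funext u
      rw [pr_cons]; ring
    rw [h5]
    refine h4.congr fun j => ?_
    simp only [List.cons_append, List.mem_cons, List.mem_append]; tauto

lemma abs_diff_leW (hψ : S.Wt ψ) {l : List ι} (hl : l.Nodup) {t : ℝ} (ht : ∀ u, pr ψ l u ≤ t)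
    (h : ∀ l' : List ι, l'.Nodup → l'.length < l.length → S.PB l') {X : Set V} (hX : Cmp G l X)
    {x : V → H} (hx : ∀ u, u ∉ X → x u = 0) :
    |B (S.Tl l) x x - Q x| ≤ 2 * (t - 1) * Q x := by
  have h1 := bddW_diff hψ l [] (by simpa using hl) (by simpa using h) X X (by simpa using hX)
    (by simpa using hX) x x hx hx
  rw [Tl_nil, one_mul, B_sub, S.B_Rl hX hx] at h1
  have h2 : Qw (fun u => 2 * (pr ψ l u - 1)) x ≤ 2 * (t - 1) * Q x := by
    rw [← Qw_const]
    unfold Qw
    refine sum_le_sum fun u _ => ?_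
    have := ht u
    exact mul_le_mul_of_nonneg_right (by linarith) (sq_nonneg _)
  linarith

/-- All forms are bounded by `2`. -/
lemma pb_allW (hψ : S.Wt ψ) (hn : ∀ l : List ι, l.Nodup → ∀ u, pr ψ l u ≤ 3 / 2) :
    ∀ m : ℕ, ∀ l : List ι, l.Nodup → l.length = m → S.PB l := by
  intro m
  induction m using Nat.strong_induction_on with
  | _ m ih =>
    intro l hl hlen X hX x hx
    have h1 := abs_diff_leW hψ hl (hn l hl)
      (fun l' hl' hlt => ih l'.length (hlen ▸ hlt) l' hl' rfl) hX hx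
    have h3 := (abs_le.1 h1).2
    have h4 := Q_nonneg x
    linarith

/-- The rank argument. -/
theorem card_leW (hψ : S.Wt ψ) {t : ℝ} (ht : t < 3 / 2)
    (hn : ∀ l : List ι, l.Nodup → ∀ u, pr ψ l u ≤ t) [FiniteDimensional ℝ H]
    [Nontrivial H] {l : List ι} (hl : l.Nodup) {n : ℕ} (hlen : l.length = n)
    (hX : Cmp G l Set.univ) :
    Fintype.card V ≤ 2 ^ n := by
  by_contra hcon
  push Not at hcon
  obtain ⟨J, _, hcard, Φ, hΦ⟩ := S.gram hl
  have h0 : 0 < Module.finrank ℝ H := Module.finrank_pos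
  have h1 : Module.finrank ℝ (J → H) < Module.finrank ℝ (V → H) := by
    rw [Module.finrank_pi_fintype, Module.finrank_pi_fintype, sum_const, sum_const, card_univ,
      card_univ, hcard, smul_eq_mul, smul_eq_mul, hlen]
    exact Nat.mul_lt_mul_of_pos_right hcon h0
  have h2 := LinearMap.ker_ne_bot_of_finrank_lt (f := Φ) h1
  obtain ⟨x, hx, hx0⟩ := Submodule.exists_mem_ne_zero_of_ne_bot h2
  have h3 : B (S.Tl l) x x = 0 := by
    rw [hΦ, LinearMap.mem_ker.1 hx]; simp
  have h4 := abs_diff_leW hψ hl (hn l hl)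
    (fun l' hl' hlt => pb_allW hψ (fun l hl u => (hn l hl u).trans ht.le) l'.length l' hl' rfl)
    hX (x := x) (fun u hu => absurd (Set.mem_univ u) hu)
  rw [h3, zero_sub, abs_neg] at h4
  have h5 := Q_pos hx0
  have h6 := le_abs_self (Q x)
  nlinarith

/-- Bound for the products. -/
lemma pr_le_exp [Fintype ι] (hψ : ∀ i u, 0 ≤ ψ i u) {l : List ι} (hl : l.Nodup) (u : V) :
    pr ψ l u ≤ Real.exp (∑ i, ψ i u) := by
  classical
  have h1 : ∀ l : List ι, pr ψ l u ≤ Real.exp ((l.map fun i => ψ i u).sum) := by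
    intro l
    induction l with
    | nil => simp [pr_nil]
    | cons i l ih =>
      rw [pr_cons, List.map_cons, List.sum_cons, Real.exp_add]
      have h2 := Real.add_one_le_exp (ψ i u)
      exact mul_le_mul (by linarith) ih (pr_nonneg hψ l u) (Real.exp_pos _).le
  refine (h1 l).trans (Real.exp_le_exp.2 ?_)
  rw [← List.sum_toFinset _ hl]
  exact sum_le_sum_of_subset_of_nonneg (subset_univ _) fun i _ _ => hψ i u

end Sys

end MP051125H69
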