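import Pool.Agent.Lib.MP_051125_co_h69.One

/-!
# The operators attached to one graph, vertex dependent bounds

Only the clusterings in which the vertex has positive level contribute to the bounds.
-/

namespace MP051125H69

open Finset

/-- The number of labellings in which the vertex has positive level. -/
noncomputable def actD {V : Type*} {D : ℕ} (l : Fin D → V → ℕ) (u : V) : ℕ :=
  (univ.filter fun j => 1 ≤ l j u).card

section one

variable {V : Type*} {H : Type*} [NormedAddCommGroup H] [InnerProductSpace ℝ H] {D : ℕ}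
  {g : Fin D → Module.End ℝ H} {R : ℕ} {r : ℝ} {l : Fin D → V → ℕ} {sg : Fin D → V → Bool}
  {G : SimpleGraph V}

lemma sum_act (u : V) (c : ℝ) :
    (∑ jd : Fin D × Bool, if 1 ≤ l jd.1 u then c else 0) = 2 * actD l u * c := by
  rw [Fintype.sum_prod_type]
  simp only [Fintype.sum_bool, ← two_mul]
  rw [← mul_sum, ← sum_filter, sum_const, nsmul_eq_mul, actD]
  ring

variable (h1 : ∀ j, g j * g j = 1) (h2 : ∀ j k, j ≠ k → g j * g k + g k * g j = 0)
  (hs : ∀ j ξ η, inner ℝ (g j ξ) η = inner ℝ ξ (g j η))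

include h1 h2 hs in
lemma opx_boundW (hR : 1 ≤ R) (hL : LabD G R l sg) (u : V) (ξ : H) :
    ∑ k : Kp D R, ‖opx g R r l sg k u ξ‖ ^ 2 ≤ 4 * actD l u * r ^ 2 * ‖ξ‖ ^ 2 := by
  have h0 := (hh_pos hR hL u).ne'
  have hb : ∀ j : Fin D, ‖((r * (hh l u)⁻¹) • (cl g (wt l u) - ss sg u j •
      cl g (ss sg u * wt l u))) ξ‖ ^ 2 ≤ 2 * r ^ 2 * ‖ξ‖ ^ 2 := by
    intro j
    rw [LinearMap.smul_apply, norm_smul, mul_pow, LinearMap.sub_apply, LinearMap.smul_apply]
    have e1 := cl_norm g h1 h2 hs (wt l u) ξ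
    have e2 := cl_norm g h1 h2 hs (ss sg u * wt l u) ξ
    rw [sum_sw] at e2
    have e3 : ‖cl g (wt l u) ξ - ss sg u j • cl g (ss sg u * wt l u) ξ‖ ^ 2 ≤
        2 * (‖cl g (wt l u) ξ‖ ^ 2 + ‖ss sg u j • cl g (ss sg u * wt l u) ξ‖ ^ 2) := by
      have := norm_sub_le (cl g (wt l u) ξ) (ss sg u j • cl g (ss sg u * wt l u) ξ)
      have h3 := norm_nonneg (cl g (wt l u) ξ - ss sg u j • cl g (ss sg u * wt l u) ξ)
      nlinarith [sq_nonneg (‖cl g (wt l u) ξ‖ - ‖ss sg u j • cl g (ss sg u * wt l u) ξ‖)]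
    have e4 : ‖ss sg u j • cl g (ss sg u * wt l u) ξ‖ ^ 2 = ‖cl g (ss sg u * wt l u) ξ‖ ^ 2 := by
      rw [norm_smul, mul_pow, Real.norm_eq_abs, sq_abs, ss_sq, one_mul]
    rw [e4, e1, e2, ← two_mul, ← mul_assoc, ← mul_assoc, mul_assoc (2 : ℝ) 2, mul_assoc (2 : ℝ),
      ← hh_sq] at e3
    rw [Real.norm_eq_abs, sq_abs, mul_pow]
    calc r ^ 2 * (hh l u)⁻¹ ^ 2 * ‖cl g (wt l u) ξ - ss sg u j • cl g (ss sg u * wt l u) ξ‖ ^ 2
        ≤ r ^ 2 * (hh l u)⁻¹ ^ 2 * (2 * (hh l u ^ 2 * ‖ξ‖ ^ 2)) := by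
          apply mul_le_mul_of_nonneg_left _ (by positivity)
          linarith
      _ = 2 * r ^ 2 * ‖ξ‖ ^ 2 := by field_simp
  rw [Fintype.sum_prod_type]
  calc ∑ jd : Fin D × Bool, ∑ st, ‖opx g R r l sg (jd, st) u ξ‖ ^ 2
      ≤ ∑ jd : Fin D × Bool, if 1 ≤ l jd.1 u then 2 * r ^ 2 * ‖ξ‖ ^ 2 else 0 := by
        refine sum_le_sum fun jd _ => ?_
        by_cases hj : 1 ≤ l jd.1 u
        · rw [if_pos hj]
          refine le_trans (sum_le_sum (g := fun st => if Px R l sg jd.1 st u then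
            2 * r ^ 2 * ‖ξ‖ ^ 2 else 0) fun st _ => ?_) (sum_ite_le_of_unique _ ?_ (by positivity))
          · unfold opx
            split_ifs with h
            · exact hb jd.1
            · simp
          · rintro a b ⟨a1, a2, -⟩ ⟨b1, b2, -⟩
            refine Prod.ext (Fin.ext ?_) ?_
            · rw [← a1, ← b1]
            · rw [← a2, ← b2]
        · rw [if_neg hj]
          refine le_of_eq (sum_eq_zero fun st _ => ?_)
          unfold opx
          rw [if_neg]
          · simp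
          · rintro ⟨a1, a2, a3⟩
            exact hj (by rw [a1]; exact a3)
    _ = 4 * actD l u * r ^ 2 * ‖ξ‖ ^ 2 := by
        rw [sum_act]
        ring

include h1 hs in
lemma opy_boundW (hR : 1 ≤ R) (hr : 0 < r) (hL : LabD G R l sg) (u : V) (ξ : H) :
    ∑ k : Kp D R, ‖opy g R r l sg k u ξ‖ ^ 2 ≤ actD l u / (r ^ 2 * R ^ 2) * ‖ξ‖ ^ 2 := by
  have h0 := hh_pos hR hL u
  have hR' : (1 : ℝ) ≤ R := by exact_mod_cast hR
  have hb : ∀ (j : Fin D) (d : Bool), ‖(((if d then 1 else -1) * r⁻¹ * (hh l u)⁻¹) • g j) ξ‖ ^ 2 ≤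
      1 / (2 * (r ^ 2 * R ^ 2)) * ‖ξ‖ ^ 2 := by
    intro j d
    rw [LinearMap.smul_apply, norm_smul, mul_pow, g_norm g h1 hs, Real.norm_eq_abs, sq_abs,
      mul_pow, mul_pow]
    have e1 : (if d = true then (1 : ℝ) else -1) ^ 2 = 1 := by split_ifs <;> norm_num
    rw [e1, one_mul, inv_pow, inv_pow, ← mul_inv]
    apply mul_le_mul_of_nonneg_right _ (sq_nonneg _)
    rw [← one_div]
    apply one_div_le_one_div_of_le (by positivity)
    have := hh_ge hL u
    nlinarith [sq_nonneg r]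
  rw [Fintype.sum_prod_type]
  calc ∑ jd : Fin D × Bool, ∑ st, ‖opy g R r l sg (jd, st) u ξ‖ ^ 2
      ≤ ∑ jd : Fin D × Bool, if 1 ≤ l jd.1 u then 1 / (2 * (r ^ 2 * R ^ 2)) * ‖ξ‖ ^ 2 else 0 := by
        refine sum_le_sum fun jd _ => ?_
        by_cases hj : 1 ≤ l jd.1 u
        · rw [if_pos hj]
          refine le_trans (sum_le_sum (g := fun st => if Py R l sg jd.1 jd.2 st u then
            1 / (2 * (r ^ 2 * R ^ 2)) * ‖ξ‖ ^ 2 else 0) fun st _ => ?_)
            (sum_ite_le_of_unique _ ?_ (by positivity))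
          · unfold opy
            by_cases h : Py R l sg jd.1 jd.2 st u
            · rw [if_pos h, if_pos h]
              exact hb jd.1 jd.2
            · rw [if_neg h, if_neg h]
              simp
          · rintro a b ⟨a1, a2, a3⟩ ⟨b1, b2, b3⟩
            refine Prod.ext (Fin.ext ?_) ?_
            · split_ifs at a3 b3 <;> omega
            · have := a1.symm.trans b1
              simpa using this
        · rw [if_neg hj]
          refine le_of_eq (sum_eq_zero fun st _ => ?_)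
          unfold opy
          rw [if_neg]
          · simp
          · rintro ⟨a1, a2, a3⟩
            exact hj a2
    _ = actD l u / (r ^ 2 * R ^ 2) * ‖ξ‖ ^ 2 := by
        rw [sum_act]
        field_simp

end one

end MP051125H69
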