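import Pool.Agent.Lib.MP_051125_co_h69.Main
import Pool.Agent.Lib.MP_051125_co_h83.LabW
import Pool.Agent.Lib.MP_051125_co_h83.NormW
import Pool.Agent.Lib.MP_051125_co_h83.OneW

/-!
# A quadratic upper bound

`oddCycleAtMost_Qn`: every `n`-colouring of the edges of the complete graph on `2 ^ n + 1`
vertices has a monochromatic odd cycle of length at most `480 n ^ 2 + 212 n + 13`.
-/

namespace MP051125H69

open Finset MP051125H83

section ext

variable {V : Type*} {G : SimpleGraph V} {R : ℕ}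

/-- The levels cut at `R + 1`, extended by `0`. -/
noncomputable def extL (D : ℕ) (F : LabFam G (2 * (R + 1))) : Fin D → V → ℕ :=
  fun j u => if h : j.1 < F.D then min (F.w ⟨j.1, h⟩ u) (R + 1) else 0

/-- The signs, extended. -/
noncomputable def extS (D : ℕ) (F : LabFam G (2 * (R + 1))) : Fin D → V → Bool :=
  fun j u => if h : j.1 < F.D then F.sg ⟨j.1, h⟩ u else false

lemma extL_labD {D : ℕ} (F : LabFam G (2 * (R + 1))) (hD : F.D ≤ D) :
    LabD G R (extL D F) (extS D F) where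
  le j u := by
    unfold extL
    split_ifs
    · exact min_le_right _ _
    · exact Nat.zero_le _
  adj j u v huv := by
    unfold extL
    split_ifs with h
    · have := (F.lab ⟨j.1, h⟩).adj u v huv
      omega
    · exact Nat.zero_le _
  sgn j u v huv h1 h2 := by
    unfold extL at h1 h2
    unfold extS
    by_cases h : j.1 < F.D
    · rw [dif_pos h] at h1 h2
      rw [dif_pos h, dif_pos h]
      exact (F.lab ⟨j.1, h⟩).sgn u v huv (h1.trans (min_le_left _ _)) (h2.trans (min_le_left _ _))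
    · rw [dif_neg h] at h1
      omega
  cov u := by
    obtain ⟨j, hj⟩ := F.big u
    refine ⟨⟨j.1, j.2.trans_le hD⟩, ?_⟩
    unfold extL
    rw [dif_pos j.2]
    have : F.w ⟨j.1, j.2⟩ u = F.w j u := rfl
    simp only [this]
    omega

lemma extL_act {D : ℕ} (F : LabFam G (2 * (R + 1))) (hD : F.D ≤ D) (u : V) :
    actD (extL D F) u ≤ F.act u := by
  classical
  unfold actD LabFam.act
  refine le_trans (card_le_card (t := (univ.filter fun j => 1 ≤ F.w j u).image (Fin.castLE hD))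
    ?_) card_image_le
  intro j hj
  rw [mem_filter] at hj
  have h1 := hj.2
  unfold extL at h1
  by_cases h : j.1 < F.D
  · rw [dif_pos h] at h1
    rw [mem_image]
    exact ⟨⟨j.1, h⟩, mem_filter.2 ⟨mem_univ _, h1.trans (min_le_left _ _)⟩, Fin.ext rfl⟩
  · rw [dif_neg h] at h1
    omega

end ext

section sys

variable {V : Type*} [Fintype V] {ι : Type*} [Fintype ι] [DecidableEq ι] {D : ℕ}

omit [Fintype V] in
lemma mkSys_wt (G : ι → SimpleGraph V) {R : ℕ} (hR : 1 ≤ R) {φ : ℝ}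
    (hφ : 2 * D / (R : ℝ) ≤ φ) (l : ι → Fin D → V → ℕ) (sg : ι → Fin D → V → Bool)
    (hL : ∀ i, LabD (G i) R (l i) (sg i)) :
    (mkSys G hR hφ l sg hL).Wt (fun i u => 2 * actD (l i) u / (R : ℝ)) where
  nonneg i u := by positivity
  bx i u ξ := by
    have h0 : (0 : ℝ) < R := by exact_mod_cast hR
    refine (opx_boundW (gg_sq i) (gg_anti i) (gg_symm i) hR (hL i) u ξ).trans ?_
    apply mul_le_mul_of_nonneg_right _ (sq_nonneg _)
    rw [Real.sq_sqrt (by positivity)]
    refine le_of_eq ?_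
    field_simp
    ring
  by_ i u ξ := by
    have h0 : (0 : ℝ) < R := by exact_mod_cast hR
    refine (opy_boundW (gg_sq i) (gg_symm i) hR (Real.sqrt_pos.2 (by positivity)) (hL i) u
      ξ).trans ?_
    apply mul_le_mul_of_nonneg_right _ (sq_nonneg _)
    rw [Real.sq_sqrt (by positivity)]
    refine le_of_eq ?_
    field_simp

/-- The main theorem. -/
theorem card_le_two_powW (G : ι → SimpleGraph V) (hcov : ∀ u v, u ≠ v → ∃ i, (G i).Adj u v)
    {R s A : ℕ} (hR : 1 ≤ R)
    (hG : ∀ i, NoShortOdd (G i) (2 * ((2 * (R + 1)) * (2 * s + 1)) + 1))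
    (hs : 4 ^ s * Fintype.card V < 5 ^ s)
    (hA : 4 ^ Fintype.card ι * Fintype.card V < 2 ^ (A + 1))
    (hn : Real.exp (2 * A / (R : ℝ)) < 3 / 2) :
    Fintype.card V ≤ 2 ^ Fintype.card ι := by
  obtain ⟨F, hF⟩ := exists_fams G (by omega : 1 ≤ 2 * (R + 1)) hG hs
  have hD : ∀ i, (F i).D ≤ ∑ i, (F i).D := fun i =>
    single_le_sum (f := fun i => (F i).D) (fun _ _ => Nat.zero_le _) (mem_univ i)
  set D := ∑ i, (F i).D with hDdef
  have hL : ∀ i, LabD (G i) R (extL D (F i)) (extS D (F i)) := fun i => extL_labD (F i) (hD i)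
  have hψ := mkSys_wt G hR (le_refl (2 * (D : ℝ) / (R : ℝ))) (fun i => extL D (F i))
    (fun i => extS D (F i)) hL
  have h0 : (0 : ℝ) < R := by exact_mod_cast hR
  refine Sys.card_leW hψ hn (fun l hl u => ?_) (Finset.nodup_toList (univ : Finset ι))
    (by rw [Finset.length_toList, card_univ]) ?_
  · refine (Sys.pr_le_exp hψ.nonneg hl u).trans (Real.exp_le_exp.2 ?_)
    have h1 : ∑ i, actD (extL D (F i)) u ≤ A := by
      refine (sum_le_sum fun i _ => extL_act (F i) (hD i) u).trans ?_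
      have h2 := (hF u).trans_lt hA
      have h3 := (Nat.pow_lt_pow_iff_right (by norm_num : 1 < 2)).1 h2
      omega
    have h4 : ((∑ i, actD (extL D (F i)) u : ℕ) : ℝ) ≤ A := by exact_mod_cast h1
    rw [← sum_div, ← mul_sum]
    push_cast at h4
    gcongr
  · intro u _ v _ huv
    obtain ⟨i, hi⟩ := hcov u v huv
    exact ⟨i, by simp, hi⟩

end sys

lemma exp_aux {n : ℕ} (hn : 1 ≤ n) :
    Real.exp (2 * ((3 * n : ℕ) : ℝ) / ((15 * n : ℕ) : ℝ)) < 3 / 2 := by
  have h0 : (0 : ℝ) < n := by exact_mod_cast hn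
  have h1 : 2 * ((3 * n : ℕ) : ℝ) / ((15 * n : ℕ) : ℝ) = 2 / 5 := by
    push_cast
    field_simp
    norm_num
  rw [h1]
  have h3 : Real.exp 1 < 2.7182818286 := Real.exp_one_lt_d9
  have h4 : Real.exp (2 / 5) ^ 5 = Real.exp 1 ^ 2 := by
    rw [← Real.exp_nat_mul, ← Real.exp_nat_mul]; congr 1; norm_num
  by_contra hcon
  push Not at hcon
  have h5 : (3 / 2 : ℝ) ^ 5 ≤ Real.exp (2 / 5) ^ 5 := by gcongr
  have h6 : Real.exp 1 ^ 2 < 2.7182818286 ^ 2 := by
    have := Real.exp_pos 1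
    gcongr
  rw [h4] at h5
  norm_num at h5 h6
  linarith

lemma growth {n : ℕ} (hn : 1 ≤ n) : 4 * 512 ^ n + 4 * 256 ^ n < 5 * 625 ^ n := by
  induction n, hn using Nat.le_induction with
  | base => norm_num
  | succ k _ ih =>
    rw [pow_succ, pow_succ, pow_succ]
    omega

/-- The bound. -/
def Qn (n : ℕ) : ℕ := 480 * n ^ 2 + 212 * n + 13

theorem oddCycleAtMost_Qn (n : ℕ) : OddCycleAtMost n (Qn n) := by
  rcases Nat.eq_zero_or_pos n with h0 | hn
  · subst h0
    intro c
    exact (c s(0, 0)).elim0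
  intro c
  by_contra hcon
  push Not at hcon
  have key := card_le_two_powW (V := Fin (2 ^ n + 1)) (ι := Fin n) (fun i => colourGraph c i)
    (R := 15 * n) (s := 4 * n + 1) (A := 3 * n) ?_ ?_ ?_ ?_ ?_ ?_
  · rw [Fintype.card_fin, Fintype.card_fin] at key; omega
  · intro u v huv
    exact ⟨c s(u, v), huv, rfl⟩
  · omega
  · intro i v w hw
    obtain ⟨x, w', hc, hodd, hle⟩ := exists_odd_cycle_of_odd_closed_walk w hw
    have h1 := hcon i x w' hc hodd
    have h2 : 2 * ((2 * (15 * n + 1)) * (2 * (4 * n + 1) + 1)) + 1 = Qn n := by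
      unfold Qn; ring
    rw [h2]
    exact lt_of_lt_of_le h1 hle
  · rw [Fintype.card_fin]
    have e1 : (4 : ℕ) ^ (4 * n + 1) * (2 ^ n + 1) = 4 * 512 ^ n + 4 * 256 ^ n := by
      have a : (512 : ℕ) ^ n = 256 ^ n * 2 ^ n := by rw [← mul_pow]; norm_num
      rw [pow_succ, pow_mul, a]
      norm_num
      ring
    have e2 : (5 : ℕ) ^ (4 * n + 1) = 5 * 625 ^ n := by
      rw [pow_succ, pow_mul]; norm_num; ring
    have e4 := growth hn
    rw [e1, e2]; exact e4
  · rw [Fintype.card_fin, Fintype.card_fin]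
    have e1 : (4 : ℕ) ^ n * (2 ^ n + 1) = 8 ^ n + 4 ^ n := by
      have a : (8 : ℕ) ^ n = 4 ^ n * 2 ^ n := by rw [← mul_pow]; norm_num
      rw [a]; ring
    have e2 : (2 : ℕ) ^ (3 * n + 1) = 2 * 8 ^ n := by
      rw [pow_succ, pow_mul]; norm_num; ring
    have e3 : (4 : ℕ) ^ n < 8 ^ n := Nat.pow_lt_pow_left (by norm_num) (by omega)
    rw [e1, e2]; omega
  · exact exp_aux hn

end MP051125H69
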